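import Pool.Agent.Lib.MP_db622c_co.P2.Kappa

/-!
# P2-Data: existence of the data

`F = ZMod p`, `χ = quadraticChar F`, `χ (-1) = 1`; `s 0 = s0`, `s 1 = s1`, `c = 1`, `η = χ (s1 + s0)`
(`= χ (s1 - s0)`, nonzero since `s1 + s0 ≠ 0`).  Let `θ = χ (2 * s0)` (nonzero).
For `e = 1, -1` (as an integer and as an element of `F`) put
`A = -2 * e * s0 / (1 - θ * e * s0)`, `B = (s1 - e * s0) / (1 - η * e * s0)`, `κ = B / A`.
`χ (1 - ε * s0) = ε` for `ε = ± 1`, so `χ A = θ * (θ * e) = e`, `χ B = η * (η * e) = e`, `χ κ = 1`.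
(1) For one of `e = 1, -1` we have `κ ≠ -1`.  Otherwise `B = -A` for both:
 `(s1 - s0) * (1 - θ * s0) = 2 * s0 * (1 - η * s0)` and `(s1 + s0) * (1 + θ * s0) = -2 * s0 * (1 + η * s0)`.
 If `θ = η`: `s1 - s0 = 2 * s0`, `s1 + s0 = -2 * s0`, so `6 * s0 = 0`, contradiction (`p ≥ 13`, `s0 ≠ 0`).
 If `θ = -η`: multiply the first by `(1 - η * s0)`, the second by `(1 + η * s0)` and subtract:
 `-2 * s0 * (1 - s0 ^ 2) = 2 * s0 * ((1 - η * s0) ^ 2 + (1 + η * s0) ^ 2)`, i.e.
 `3 + s0 ^ 2 = 0`, `1 - s0 ^ 2 = 4`, but `χ (1 - s0 ^ 2) = χ (1 - s0) * χ (1 + s0) = -1 ≠ χ 4 = 1`.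
(2) Take such an `e` and `W`, `u` from `exists_u` for this `κ`; `δ = u / A`, so `χ δ = e`,
 `x1 = -2 * e * s0 * δ`, `y1 = (s1 - e * s0) * δ`, `χ x1 = θ * e`, `χ y1 = η * e`,
 `x1 / (1 - (χ x1) * s0) = A * δ = u`, `y1 / (1 - (χ y1) * s0) = B * δ = κ * u`.
(3) Claim: if `v ≠ 0` and `W (v / (1 - (χ v) * s0)) = false` then `wr z - s0 * z ≠ v` for all `z` with
 `χ z = 1` (`wr z = if W z then z else -z`).  If `W z = true` then `(1 - s0) * z = v` gives `χ v = 1`,
 `v / (1 - s0) = z`, contradiction; if `W z = false` then `-(1 + s0) * z = v` gives `χ v = -1`,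
 `v / (1 + s0) = -z` and `W (-z) = true`, contradiction.
 Apply it to `v = x1`, `y1`: the fields `hx`, `hy`.
-/

namespace Pool.Agent.Lib.MP_db622c_co.P2

open Pool.Agent.Lib.MP_db622c_co Pool.Agent.Lib.MP_db622c_co.CB

private theorem chi_sgn {F : Type} [Field F] [Fintype F] [DecidableEq F]
    (hF : Fintype.card F % 4 = 1) {τ : ℤ} (hτ : τ = 1 ∨ τ = -1) :
    quadraticChar F ((τ : ℤ) : F) = 1 := by
  rcases hτ with rfl | rfl
  · rw [Int.cast_one, map_one]
  · rw [Int.cast_neg, Int.cast_one, chi_neg_one hF]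

private theorem chi_key {F : Type} [Field F] [Fintype F] [DecidableEq F] {s0 : F}
    (h0 : quadraticChar F (1 - s0) = 1) (h0' : quadraticChar F (1 + s0) = -1)
    {τ : ℤ} (hτ : τ = 1 ∨ τ = -1) : quadraticChar F (1 - (τ : F) * s0) = τ := by
  rcases hτ with rfl | rfl
  · rw [Int.cast_one, one_mul, h0]
  · rw [Int.cast_neg, Int.cast_one, neg_one_mul, sub_neg_eq_add, h0']

private theorem sgn_mul {a b : ℤ} (ha : a = 1 ∨ a = -1) (hb : b = 1 ∨ b = -1) :
    a * b = 1 ∨ a * b = -1 := by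
  rcases ha with rfl | rfl <;> rcases hb with rfl | rfl <;> simp

private theorem no_hit {F : Type} [Field F] [Fintype F] [DecidableEq F]
    (hF : Fintype.card F % 4 = 1) {s0 : F}
    (h0 : quadraticChar F (1 - s0) = 1) (h0' : quadraticChar F (1 + s0) = -1)
    {τ : ℤ} (hτ : τ = 1 ∨ τ = -1) {W : F → Bool} (hW : ∀ m, m ≠ 0 → W (-m) = !(W m)) {u : F}
    (hu : quadraticChar F u = 1) (hWu : W u = false) {z : F} (hz : quadraticChar F z = 1) :
    (if W z then z else -z) - s0 * z ≠ (1 - (τ : F) * s0) * u := by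
  intro h
  have hz0 : z ≠ 0 := chi_ne_zero (Or.inl hz)
  have hR : quadraticChar F ((1 - (τ : F) * s0) * u) = τ := by
    rw [map_mul, chi_key h0 h0' hτ, hu, mul_one]
  by_cases hWz : W z = true
  · rw [if_pos hWz] at h
    have h1 : z - s0 * z = (1 - s0) * z := by ring
    rw [h1] at h
    have h2 : τ = 1 := by rw [← hR, ← h, map_mul, h0, hz, mul_one]
    rw [h2, Int.cast_one, one_mul] at h
    have h3 := mul_left_cancel₀ (chi_ne_zero (Or.inl h0)) h
    rw [h3, hWu] at hWz
    exact Bool.false_ne_true hWz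
  · rw [if_neg hWz] at h
    have h1 : -z - s0 * z = (1 + s0) * (-z) := by ring
    rw [h1] at h
    have h2 : τ = -1 := by rw [← hR, ← h, map_mul, h0', chi_neg hF, hz, mul_one]
    have h3 : (1 - ((-1 : ℤ) : F) * s0) = 1 + s0 := by push_cast; ring
    rw [h2, h3] at h
    have h4 := mul_left_cancel₀ (chi_ne_zero (Or.inr h0')) h
    rw [← h4, hW z hz0] at hWu
    have h5 : W z = false := by simpa using hWz
    rw [h5] at hWu
    simp at hWu

private theorem exists_e {F : Type} [Field F] [Fintype F] [DecidableEq F]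
    (hF : Fintype.card F % 4 = 1) (h6 : (6 : F) ≠ 0) {s0 s1 : F}
    (h0 : quadraticChar F (1 - s0) = 1) (h0' : quadraticChar F (1 + s0) = -1)
    {θ η : ℤ} (hθ : θ = 1 ∨ θ = -1) (hη : η = 1 ∨ η = -1) (hs0 : s0 ≠ 0) :
    ∃ e : ℤ, (e = 1 ∨ e = -1) ∧
      (s1 - (e : F) * s0) * (1 - ((θ * e : ℤ) : F) * s0) ≠
        2 * (e : F) * s0 * (1 - ((η * e : ℤ) : F) * s0) := by
  by_contra hcon
  push Not at hcon
  have e1 := hcon 1 (Or.inl rfl)
  have e2 := hcon (-1) (Or.inr rfl)
  have hm : (1 - s0) ≠ 0 := chi_ne_zero (Or.inl h0)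
  have hp : (1 + s0) ≠ 0 := chi_ne_zero (Or.inr h0')
  have h2 : (2 : F) ≠ 0 := two_ne hF
  by_cases hc : θ = η
  · -- equal signs
    have key : s0 * 6 = 0 := by
      rcases hη with h | h
      · rw [hc, h] at e1 e2
        push_cast at e1 e2
        have f1 : s1 - s0 = 2 * s0 := by
          apply mul_right_cancel₀ hm
          linear_combination e1
        have f2 : s1 + s0 = -2 * s0 := by
          apply mul_right_cancel₀ hp
          linear_combination e2
        linear_combination f2 - f1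
      · rw [hc, h] at e1 e2
        push_cast at e1 e2
        have f1 : s1 - s0 = 2 * s0 := by
          apply mul_right_cancel₀ hp
          linear_combination e1
        have f2 : s1 + s0 = -2 * s0 := by
          apply mul_right_cancel₀ hm
          linear_combination e2
        linear_combination f2 - f1
    rcases mul_eq_zero.1 key with h | h
    · exact hs0 h
    · exact h6 h
  · -- opposite signs
    have hc' : θ = -η := by omega
    have key : 3 + s0 ^ 2 = 0 := by
      apply mul_left_cancel₀ h2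
      apply mul_left_cancel₀ hs0
      rcases hη with h | h
      · rw [hc', h] at e1 e2
        push_cast at e1 e2
        linear_combination (1 + s0) * e2 - (1 - s0) * e1
      · rw [hc', h] at e1 e2
        push_cast at e1 e2
        linear_combination (1 - s0) * e2 - (1 + s0) * e1
    have h4 : (1 - s0) * (1 + s0) = 2 ^ 2 := by linear_combination -key
    have h5 : quadraticChar F ((1 - s0) * (1 + s0)) = -1 := by rw [map_mul, h0, h0', one_mul]
    rw [h4, quadraticChar_sq_one' h2] at h5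
    norm_num at h5

theorem exists_data (p : ℕ) [Fact p.Prime] (h4 : p % 4 = 1) (h13 : 13 ≤ p) (s0 s1 : ZMod p)
    (h0 : quadraticChar (ZMod p) (1 - s0) = 1) (h0' : quadraticChar (ZMod p) (1 + s0) = -1)
    (h1 : quadraticChar (ZMod p) (1 - s1) = 1) (h1' : quadraticChar (ZMod p) (1 + s1) = -1)
    (hpm : quadraticChar (ZMod p) (s1 + s0) = quadraticChar (ZMod p) (s1 - s0))
    (hne : s1 + s0 ≠ 0) : Nonempty (PData (ZMod p)) := by
  have hF : Fintype.card (ZMod p) % 4 = 1 := by rw [ZMod.card]; exact h4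
  have h2 : (2 : ZMod p) ≠ 0 := two_ne hF
  have h6 : (6 : ZMod p) ≠ 0 := by
    intro h
    have h' : ((6 : ℕ) : ZMod p) = 0 := by exact_mod_cast h
    rw [ZMod.natCast_eq_zero_iff] at h'
    have := Nat.le_of_dvd (by norm_num) h'
    omega
  have hs0 : s0 ≠ 0 := by
    intro h
    rw [h, add_zero, map_one] at h0'
    norm_num at h0'
  obtain ⟨θ, hθe⟩ : ∃ θ : ℤ, quadraticChar (ZMod p) (2 * s0) = θ := ⟨_, rfl⟩
  obtain ⟨η, hηe⟩ : ∃ η : ℤ, quadraticChar (ZMod p) (s1 + s0) = η := ⟨_, rfl⟩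
  have hθ : θ = 1 ∨ θ = -1 := by
    rw [← hθe]; exact quadraticChar_dichotomy (mul_ne_zero h2 hs0)
  have hη : η = 1 ∨ η = -1 := by rw [← hηe]; exact quadraticChar_dichotomy hne
  have hηm : quadraticChar (ZMod p) (s1 - s0) = η := by rw [← hpm, hηe]
  obtain ⟨e, he, hecon⟩ := exists_e hF h6 h0 h0' hθ hη hs0 (s1 := s1)
  have hθe' := sgn_mul hθ he
  have hηe' := sgn_mul hη he
  have hee : e * e = 1 := by rcases he with h | h <;> rw [h] <;> norm_num
  have hθθ : θ * θ = 1 := by rcases hθ with h | h <;> rw [h] <;> norm_num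
  have hηη : η * η = 1 := by rcases hη with h | h <;> rw [h] <;> norm_num
  have kA := chi_key h0 h0' hθe'
  have kB := chi_key h0 h0' hηe'
  have kA0 : (1 - ((θ * e : ℤ) : ZMod p) * s0) ≠ 0 := chi_ne_zero (by rw [kA]; exact hθe')
  have kB0 : (1 - ((η * e : ℤ) : ZMod p) * s0) ≠ 0 := chi_ne_zero (by rw [kB]; exact hηe')
  obtain ⟨A, hA⟩ : ∃ A : ZMod p, A = -(2 * s0 * (e : ZMod p)) / (1 - ((θ * e : ℤ) : ZMod p) * s0) :=
    ⟨_, rfl⟩
  obtain ⟨B, hB⟩ : ∃ B : ZMod p, B = (s1 - (e : ZMod p) * s0) / (1 - ((η * e : ℤ) : ZMod p) * s0) :=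
    ⟨_, rfl⟩
  have cA : quadraticChar (ZMod p) A = e := by
    rw [hA, chi_div, chi_neg hF, map_mul, hθe, chi_sgn hF he, kA]
    linear_combination e * hθθ
  have hse : quadraticChar (ZMod p) (s1 - (e : ZMod p) * s0) = η := by
    rcases he with h | h
    · rw [h, Int.cast_one, one_mul, hηm]
    · rw [h, Int.cast_neg, Int.cast_one, neg_one_mul, sub_neg_eq_add, hηe]
  have cB : quadraticChar (ZMod p) B = e := by
    rw [hB, chi_div, hse, kB]
    linear_combination e * hηη
  have hA0 : A ≠ 0 := chi_ne_zero (by rw [cA]; exact he)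
  have eA : A * (1 - ((θ * e : ℤ) : ZMod p) * s0) = -(2 * s0 * (e : ZMod p)) := by
    rw [hA, div_mul_cancel₀ _ kA0]
  have eB : B * (1 - ((η * e : ℤ) : ZMod p) * s0) = s1 - (e : ZMod p) * s0 := by
    rw [hB, div_mul_cancel₀ _ kB0]
  have hκ1 : B / A ≠ -1 := by
    intro h
    rw [div_eq_iff hA0] at h
    apply hecon
    rw [← eB, h]
    linear_combination (-(1 - ((η * e : ℤ) : ZMod p) * s0)) * eA
  have hκ : quadraticChar (ZMod p) (B / A) = 1 := by rw [chi_div, cA, cB, hee]
  obtain ⟨W, u, hW, hWc, hu, hWu, hWκ⟩ := exists_u p h4 h13 (B / A) hκ hκ1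
  have cδ : quadraticChar (ZMod p) (u / A) = e := by rw [chi_div, hu, cA, one_mul]
  refine ⟨{ s := fun i => if i = 0 then s0 else s1, W := W, c := 1, δ := u / A, η := η,
            hF := hF, h1 := ?_, h2 := ?_, hη := hη, hp := ?_, hm := ?_, hW := hW, hc := map_one _,
            hWc := hWc, hδ := ?_, hx := ?_, hy := ?_ }⟩
  · intro i
    by_cases hi : i = 0
    · simp only [hi, if_true]; exact h0
    · simp only [hi, if_false]; exact h1
  · intro i
    by_cases hi : i = 0
    · simp only [hi, if_true]; exact h0'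
    · simp only [hi, if_false]; exact h1'
  · have : (1 : ZMod 2) ≠ 0 := by decide
    simp only [this, if_true, if_false]; exact hηe
  · have : (1 : ZMod 2) ≠ 0 := by decide
    simp only [this, if_true, if_false]; exact hηm
  · exact chi_ne_zero (by rw [cδ]; exact he)
  · intro z hz
    rw [cδ]
    have := no_hit hF h0 h0' hθe' hW hu hWu hz
    simp only [if_true]
    intro h
    apply this
    rw [h]
    have h7 : u = A * (u / A) := by rw [mul_div_cancel₀ _ hA0]
    rw [show (1 - ((θ * e : ℤ) : ZMod p) * s0) * u = (A * (1 - ((θ * e : ℤ) : ZMod p) * s0)) * (u / A) by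
      conv_lhs => rw [h7]
      ring, eA]
    ring
  · intro z hz
    rw [cδ]
    have hu' : quadraticChar (ZMod p) (B / A * u) = 1 := by rw [map_mul, hκ, hu, one_mul]
    have := no_hit hF h0 h0' hηe' hW hu' hWκ hz
    have h8 : (1 : ZMod 2) ≠ 0 := by decide
    simp only [h8, if_true, if_false]
    intro h
    apply this
    rw [h, ← eB]
    ring

end Pool.Agent.Lib.MP_db622c_co.P2
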