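import Pool.Agent.Lib.MP_db622c_co.CB.Defs2

/-!
# MP_db622c_co, board P2: complete balanced Howell rotations on `2 (q + 1)` partnerships,
`q ≡ 1 (mod 4)`: definitions

The points are `ZMod 2 × Option F` (two copies of the projective line), the boards and the
rounds are `ZMod 2 × Option F` without `(0, none)`.  Everything is developed over `F`.
-/

namespace Pool.Agent.Lib.MP_db622c_co.P2

open Pool.Agent.Lib.MP_db622c_co Pool.Agent.Lib.MP_db622c_co.CB

/-- points, boards and rounds -/
@[reducible] def Pt (F : Type) : Type := ZMod 2 × Option F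

/-- the zero of `Pt F` (as the set of boards or rounds) -/
instance instZeroPt (F : Type) : Zero (Pt F) := ⟨((0 : ZMod 2), (none : Option F))⟩

/-- the sign of a side -/
def sd (u : ZMod 2) : ℤ := if u = 0 then 1 else -1

/-- the normalised Paley matrix of the second kind: row, column -/
def S2 {F : Type} [Field F] [Fintype F] [DecidableEq F] : Pt F → Pt F → ℤ
  | (i, none), (u, some _) => if i = 0 then 1 else sd u
  | (i, none), (u, none) => if i = 0 then 1 else - sd u
  | (i, some a), (u, some x) =>
      if x = a then (if i = 0 then sd u else -1)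
      else (if i = 0 then quadraticChar F (x - a) else sd u * quadraticChar F (x - a))
  | (i, some _), (u, none) => if i = 0 then sd u else 1

/-- The parameters: `s 0`, `s 1`, a half set `W`, a shift `c` and `δ`. -/
structure PData (F : Type) [Field F] [Fintype F] [DecidableEq F] where
  s : ZMod 2 → F
  W : F → Bool
  c : F
  δ : F
  η : ℤ
  hF : Fintype.card F % 4 = 1
  h1 : ∀ u, quadraticChar F (1 - s u) = 1
  h2 : ∀ u, quadraticChar F (1 + s u) = -1
  hη : η = 1 ∨ η = -1
  hp : quadraticChar F (s 1 + s 0) = η
  hm : quadraticChar F (s 1 - s 0) = η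
  hW : ∀ m, m ≠ 0 → W (-m) = !(W m)
  hc : quadraticChar F c = 1
  hWc : ∀ m, m ≠ 0 → m + c ≠ 0 → W m = true → W (m + c) = true →
    quadraticChar F (m + c) ≠ quadraticChar F m
  hδ : δ ≠ 0
  hx : ∀ z, quadraticChar F z = 1 →
    (if W z then z else -z) - s 0 * z ≠ -2 * (quadraticChar F δ : ℤ) * s 0 * δ
  hy : ∀ z, quadraticChar F z = 1 →
    (if W z then z else -z) - s 0 * z ≠ (s 1 - (quadraticChar F δ : ℤ) * s 0) * δ

namespace PData

variable {F : Type} [Field F] [Fintype F] [DecidableEq F] (D : PData F)

/-- the representative of `{m, -m}` in `W` -/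
def wr (m : F) : F := if D.W m then m else -m

/-- the type of an element -/
def T (m : F) : ZMod 2 := if quadraticChar F m = 1 then 0 else 1

/-- the quadratic character with values in `F` -/
def ch (m : F) : F := ((quadraticChar F m : ℤ) : F)

def x1 : F := -2 * ch D.δ * D.s 0 * D.δ
def y1 : F := (D.s 1 - ch D.δ * D.s 0) * D.δ
def d1 : F := (D.s 1 + ch D.δ * D.s 0) * D.δ

/-- the parameter of the difference `d` of a cross edge: `d = (s 1 + ch z * s 0) * z`
for `z = D.dl d` -/
def dl (d : F) : F := d / (D.s 1 + (D.η : F) * ch d * D.s 0)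

/-- board class of the edge between `(u, x)` and `(u, y)` -/
def gs (u : ZMod 2) (x y : F) : Pt F :=
  (T (D.wr ((y - x) / (2 * D.s u))), some ((x + y) / 2 - D.wr ((y - x) / (2 * D.s u))))

/-- board class of the edge between `(0, x)` and `(1, y)` -/
def gc (x y : F) : Pt F :=
  if y = x then (1, none)
  else (T (D.dl (y - x)),
    some (x + ch (D.dl (y - x)) * D.s 0 * D.dl (y - x) + D.wr (D.dl (y - x))))

/-- the classes of the boards -/
def g : Pt F → Pt F → Pt F
  | (_, none), (_, none) => (1, none)
  | (u, none), (v, some x) => (u + v + 1, some x)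
  | (u, some x), (v, none) => (u + v + 1, some x)
  | (u, some x), (v, some y) =>
      if u = v then D.gs u x y else if u = 0 then D.gc x y else D.gc y x

/-- round class of the edge between `(0, x)` and `(1, y)` -/
def rc (x y : F) : Pt F :=
  if y - x = D.d1 then (1, none)
  else (1, some (x + 2 * (ch (D.dl (y - x)) * D.s 0 * D.dl (y - x))))

/-- the classes of the rounds -/
def r : Pt F → Pt F → Pt F
  | (_, none), (_, none) => (1, none)
  | (u, none), (v, some x) =>
      if u = v then (0, some (if u = 0 then x else x - D.c))
      else (1, some (if u = 0 then x - D.y1 else x - D.x1))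
  | (u, some x), (v, none) =>
      if u = v then (0, some (if u = 0 then x else x - D.c))
      else (1, some (if v = 0 then x - D.y1 else x - D.x1))
  | (u, some x), (v, some y) =>
      if u = v then (0, some (if u = 0 then (x + y) / 2 else (x + y) / 2 - D.c))
      else if u = 0 then D.rc x y else D.rc y x

end PData

end Pool.Agent.Lib.MP_db622c_co.P2
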