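import Pool.Agent.Lib.MP_db622c_co.P2.Base

/-!
# P2-Par: existence of the parameters `s 0`, `s 1`

Let `χ = quadraticChar F`, `q = card F ≡ 1 (mod 4)`, `q > 18`, and
`V = {v : χ v = 1 ∧ χ (1 - v) = -1}`.
* `4 * card V = q - 1`: sum `(1 + χ v) * (1 - χ (1 - v))` over `v ≠ 0, 1`; it is `4` on `V` and `0` off
  `V`; `∑_{v ≠ 0, 1} χ v = -1`, `∑_{v ≠ 0, 1} χ (1 - v) = -1`, `∑ χ v * χ (1 - v) = -1`
  (`jacobiSum_nontrivial_inv` as in `pb_corr` of `CB/PaleyBase.lean`, and `χ (-1) = 1`); total
  `(q - 2) - 1 + 1 + 1 = q - 1`.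
* There are `v, v' ∈ V` with `χ (v - v') = 1`: otherwise `χ (v - v') = -1` for all `v ≠ v'` in `V`.
  Let `n` be a nonsquare (`χ n = -1`, e.g. `n = 1 - v` for a `v ∈ V`).  The map
  `V × V → F, (v, w) ↦ v + n * w` is injective: `v - v' = n * (w' - w)` has character `-1` on the
  left (if `v ≠ v'`) and `(-1) * (-1) = 1` on the right (if `w ≠ w'`), so `v = v'`, `w = w'`.
  Hence `(card V)^2 ≤ q`, i.e. `(q - 1)^2 ≤ 16 q`, which is false for `q > 18`.
* Write `v = a ^ 2`, `v' = b ^ 2`.  `χ (1 - a) * χ (1 + a) = χ (1 - v) = -1`, so one of `a`, `-a` (call it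
  `s0`) has `χ (1 - s0) = 1`, `χ (1 + s0) = -1`; similarly `s1` from `b`.  Finally
  `χ (s1 + s0) * χ (s1 - s0) = χ (v' - v) = χ (v - v') = 1`.
-/

namespace Pool.Agent.Lib.MP_db622c_co.P2

open Pool.Agent.Lib.MP_db622c_co Pool.Agent.Lib.MP_db622c_co.CB

variable {F : Type} [Field F] [Fintype F] [DecidableEq F]

private theorem par_jac (hF : Fintype.card F % 4 = 1) :
    ∑ x : F, quadraticChar F x * quadraticChar F (1 - x) = -1 := by
  have h1 : jacobiSum (quadraticChar F) (quadraticChar F)⁻¹ = - quadraticChar F (-1) :=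
    jacobiSum_nontrivial_inv (quadraticChar_ne_one (char_ne hF))
  rw [(quadraticChar_isQuadratic F).inv, jacobiSum, chi_neg_one hF] at h1
  exact h1

/-- the set `V` -/
private def VV (F : Type) [Field F] [Fintype F] [DecidableEq F] : Finset F :=
  Finset.univ.filter (fun v => quadraticChar F v = 1 ∧ quadraticChar F (1 - v) = -1)

private theorem mem_VV {v : F} :
    v ∈ VV F ↔ quadraticChar F v = 1 ∧ quadraticChar F (1 - v) = -1 := by
  simp [VV]

private theorem card_VV (hF : Fintype.card F % 4 = 1) :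
    4 * ((VV F).card : ℤ) = (Fintype.card F : ℤ) - 1 := by
  have h0 : ∑ x : F, quadraticChar F x = 0 := quadraticChar_sum_zero (char_ne hF)
  have h0' : ∑ x : F, quadraticChar F (1 - x) = 0 := by
    rw [← h0]
    exact Fintype.sum_equiv (Equiv.subLeft 1) _ _ (fun x => rfl)
  have h1 : ∑ x : F, (1 + quadraticChar F x) * (1 - quadraticChar F (1 - x)) =
      (Fintype.card F : ℤ) + 1 := by
    have e : ∀ x : F, (1 + quadraticChar F x) * (1 - quadraticChar F (1 - x)) =
        1 + quadraticChar F x - quadraticChar F (1 - x) -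
          quadraticChar F x * quadraticChar F (1 - x) := fun x => by ring
    rw [Finset.sum_congr rfl (fun x _ => e x), Finset.sum_sub_distrib, Finset.sum_sub_distrib,
      Finset.sum_add_distrib, h0, h0', par_jac hF]
    simp
  have h2 : ∀ x : F, (1 + quadraticChar F x) * (1 - quadraticChar F (1 - x)) =
      (if x ∈ VV F then 4 else 0) + (if x = 1 then 2 else 0) := by
    intro x
    by_cases hx1 : x = 1
    · subst hx1
      rw [if_neg, if_pos rfl, sub_self, quadraticChar_zero, map_one]
      · norm_num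
      · rw [mem_VV, sub_self, quadraticChar_zero]
        norm_num
    · rw [if_neg hx1, add_zero]
      by_cases hx0 : x = 0
      · subst hx0
        rw [if_neg, quadraticChar_zero, sub_zero, map_one]
        · norm_num
        · rw [mem_VV, quadraticChar_zero]
          norm_num
      · have hx1' : 1 - x ≠ 0 := sub_ne_zero.2 (Ne.symm hx1)
        by_cases hV : x ∈ VV F
        · rw [if_pos hV]
          rw [mem_VV] at hV
          rw [hV.1, hV.2]
          norm_num
        · rw [if_neg hV]
          rw [mem_VV] at hV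
          rcases quadraticChar_dichotomy hx0 with h | h
          · rcases quadraticChar_dichotomy hx1' with h' | h'
            · rw [h']; norm_num
            · exact absurd ⟨h, h'⟩ hV
          · rw [h]; norm_num
  rw [Finset.sum_congr rfl (fun x _ => h2 x), Finset.sum_add_distrib] at h1
  simp only [Finset.sum_ite_mem, Finset.univ_inter, Finset.sum_const, nsmul_eq_mul,
    Finset.sum_ite_eq', Finset.mem_univ, if_true] at h1
  linarith

private theorem exists_pair (hF : Fintype.card F % 4 = 1) (h18 : 18 < Fintype.card F) :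
    ∃ v ∈ VV F, ∃ v' ∈ VV F, quadraticChar F (v - v') = 1 := by
  by_contra hcon
  push Not at hcon
  have hc := card_VV hF
  have hpos : (VV F).Nonempty := by
    rw [← Finset.card_pos]
    have : (18 : ℤ) < (Fintype.card F : ℤ) := by exact_mod_cast h18
    have h4 : (0 : ℤ) < ((VV F).card : ℤ) := by linarith
    exact_mod_cast h4
  obtain ⟨v0, hv0⟩ := hpos
  set n : F := 1 - v0 with hn
  have hn1 : quadraticChar F n = -1 := (mem_VV.1 hv0).2
  have hn0 : n ≠ 0 := chi_ne_zero (Or.inr hn1)
  have hneg : ∀ v ∈ VV F, ∀ v' ∈ VV F, v ≠ v' → quadraticChar F (v - v') = -1 := by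
    intro v hv v' hv' hne
    rcases quadraticChar_dichotomy (sub_ne_zero.2 hne) with h | h
    · exact absurd h (hcon v hv v' hv')
    · exact h
  have hinj : Set.InjOn (fun p : F × F => p.1 + n * p.2) (VV F ×ˢ VV F : Finset (F × F)) := by
    rintro ⟨v, w⟩ h1 ⟨v', w'⟩ h2 h3
    simp only [Finset.coe_product, Set.mem_prod, Finset.mem_coe] at h1 h2
    have h3' : v + n * w = v' + n * w' := h3
    by_cases hw : w = w'
    · subst hw
      have : v = v' := by linear_combination h3'
      rw [this]
    · exfalso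
      have h4 : v - v' = n * (w' - w) := by linear_combination h3'
      have hv : v ≠ v' := by
        intro h
        rw [h, sub_self] at h4
        rcases mul_eq_zero.1 h4.symm with h5 | h5
        · exact hn0 h5
        · exact hw (sub_eq_zero.1 h5).symm
      have h5 := hneg v h1.1 v' h2.1 hv
      rw [h4, map_mul, hn1, hneg w' h2.2 w h1.2 (Ne.symm hw)] at h5
      norm_num at h5
  have hcard : (VV F ×ˢ VV F : Finset (F × F)).card ≤ Fintype.card F := by
    rw [← Finset.card_image_of_injOn hinj]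
    exact Finset.card_le_univ _
  rw [Finset.card_product] at hcard
  have h5 : ((VV F).card : ℤ) * ((VV F).card : ℤ) ≤ (Fintype.card F : ℤ) := by exact_mod_cast hcard
  have h6 : (18 : ℤ) < (Fintype.card F : ℤ) := by exact_mod_cast h18
  set q : ℤ := (Fintype.card F : ℤ) with hq
  set c : ℤ := ((VV F).card : ℤ) with hc'
  have h7 : (q - 1) * (q - 1) ≤ 16 * q := by
    rw [← hc]
    nlinarith [h5]
  nlinarith [h7, h6]

private theorem exists_root {v : F} (hv : v ∈ VV F) :
    ∃ s : F, s * s = v ∧ quadraticChar F (1 - s) = 1 ∧ quadraticChar F (1 + s) = -1 := by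
  obtain ⟨h1, h2⟩ := mem_VV.1 hv
  have hv0 : v ≠ 0 := chi_ne_zero (Or.inl h1)
  obtain ⟨a, ha⟩ := (quadraticChar_one_iff_isSquare hv0).1 h1
  have h3 : quadraticChar F (1 - a) * quadraticChar F (1 + a) = -1 := by
    rw [← map_mul, ← h2]
    congr 1
    rw [ha]
    ring
  have h4 : 1 - a ≠ 0 := by
    intro h
    rw [h, quadraticChar_zero, zero_mul] at h3
    norm_num at h3
  rcases quadraticChar_dichotomy h4 with h | h
  · refine ⟨a, ha.symm, h, ?_⟩
    rw [h, one_mul] at h3
    exact h3
  · refine ⟨-a, by rw [ha]; ring, ?_, ?_⟩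
    · rw [sub_neg_eq_add]
      rw [h] at h3
      linarith
    · rw [← sub_eq_add_neg]
      exact h

theorem exists_par (hF : Fintype.card F % 4 = 1) (h18 : 18 < Fintype.card F) :
    ∃ s0 s1 : F, quadraticChar F (1 - s0) = 1 ∧ quadraticChar F (1 + s0) = -1 ∧
      quadraticChar F (1 - s1) = 1 ∧ quadraticChar F (1 + s1) = -1 ∧
      quadraticChar F (s1 + s0) = quadraticChar F (s1 - s0) ∧ s1 + s0 ≠ 0 := by
  obtain ⟨v, hv, v', hv', h⟩ := exists_pair hF h18
  obtain ⟨s1, h1, h2, h3⟩ := exists_root hv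
  obtain ⟨s0, g1, g2, g3⟩ := exists_root hv'
  have h4 : quadraticChar F (s1 + s0) * quadraticChar F (s1 - s0) = 1 := by
    rw [← map_mul, ← h]
    congr 1
    rw [← h1, ← g1]
    ring
  have h5 : s1 + s0 ≠ 0 := by
    intro h0
    rw [h0, quadraticChar_zero, zero_mul] at h4
    norm_num at h4
  refine ⟨s0, s1, g2, g3, h2, h3, ?_, h5⟩
  rcases quadraticChar_dichotomy h5 with h6 | h6 <;> rw [h6] at h4 ⊢ <;> linarith

end Pool.Agent.Lib.MP_db622c_co.P2
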