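import Pool.Agent.Lib.MP_db622c_co.P2.Base

/-!
# P2-Par2: the parameters for `p = 13` and `p = 17`

`decide` (possibly after unfolding `quadraticChar` to `quadraticCharFun`, or with
`quadraticChar_one_iff_isSquare` / `quadraticChar_neg_one_iff_not_isSquare`, `IsSquare` in
`ZMod 13` being decidable).  For `p = 13`: `s0 = 4`, `s1 = 5`; for `p = 17`: `s0 = 2`, `s1 = 5`.
-/

namespace Pool.Agent.Lib.MP_db622c_co.P2

open Pool.Agent.Lib.MP_db622c_co Pool.Agent.Lib.MP_db622c_co.CB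

instance fact13 : Fact (Nat.Prime 13) := ⟨by norm_num⟩
instance fact17 : Fact (Nat.Prime 17) := ⟨by norm_num⟩

theorem par13 :
    ∃ s0 s1 : ZMod 13, quadraticChar (ZMod 13) (1 - s0) = 1 ∧ quadraticChar (ZMod 13) (1 + s0) = -1 ∧
      quadraticChar (ZMod 13) (1 - s1) = 1 ∧ quadraticChar (ZMod 13) (1 + s1) = -1 ∧
      quadraticChar (ZMod 13) (s1 + s0) = quadraticChar (ZMod 13) (s1 - s0) ∧ s1 + s0 ≠ 0 := by
  refine ⟨4, 5, ?_, ?_, ?_, ?_, ?_, ?_⟩ <;> decide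

theorem par17 :
    ∃ s0 s1 : ZMod 17, quadraticChar (ZMod 17) (1 - s0) = 1 ∧ quadraticChar (ZMod 17) (1 + s0) = -1 ∧
      quadraticChar (ZMod 17) (1 - s1) = 1 ∧ quadraticChar (ZMod 17) (1 + s1) = -1 ∧
      quadraticChar (ZMod 17) (s1 + s0) = quadraticChar (ZMod 17) (s1 - s0) ∧ s1 + s0 ≠ 0 := by
  refine ⟨2, 5, ?_, ?_, ?_, ?_, ?_, ?_⟩ <;> decide

end Pool.Agent.Lib.MP_db622c_co.P2
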