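import Pool.Agent.Lib.MP_db622c_co.P2.Prod
import Pool.Agent.Lib.MP_db622c_co.P2.Par
import Pool.Agent.Lib.MP_db622c_co.P2.Par2
import Pool.Agent.Lib.MP_db622c_co.P2.Data

/-!
# P2-Fin: complete balanced Howell rotations on `2 ^ e * (p + 1)` partnerships, `p ≡ 1 (mod 4)`
-/

namespace Pool.Agent.Lib.MP_db622c_co.P2

open Pool.Agent.Lib.MP_db622c_co Pool.Agent.Lib.MP_db622c_co.CB

theorem nonempty_data (p : ℕ) [Fact p.Prime] (h4 : p % 4 = 1) (h13 : 13 ≤ p) :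
    Nonempty (PData (ZMod p)) := by
  have key : ∃ s0 s1 : ZMod p, quadraticChar (ZMod p) (1 - s0) = 1 ∧
      quadraticChar (ZMod p) (1 + s0) = -1 ∧
      quadraticChar (ZMod p) (1 - s1) = 1 ∧ quadraticChar (ZMod p) (1 + s1) = -1 ∧
      quadraticChar (ZMod p) (s1 + s0) = quadraticChar (ZMod p) (s1 - s0) ∧ s1 + s0 ≠ 0 := by
    by_cases h18 : 18 < p
    · exact exists_par (by rw [ZMod.card]; exact h4) (by rw [ZMod.card]; exact h18)
    · have h : p = 13 ∨ p = 17 := by omega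
      rcases h with h | h
      · subst h
        convert par13
      · subst h
        convert par17
  obtain ⟨s0, s1, h0, h0', h1, h1', hpm, hne⟩ := key
  exact exists_data p h4 h13 s0 s1 h0 h0' h1 h1' hpm hne

/-- the orders `2 * (p + 1)` and `2 ^ e * (p + 1)`, `e ≥ 3` -/
theorem hasCBHR_prime (p : ℕ) (hp : p.Prime) (h4 : p % 4 = 1) (h13 : 13 ≤ p) (e : ℕ)
    (he : e = 1 ∨ 3 ≤ e) : HasCBHR (2 ^ e * (p + 1)) := by
  have : Fact p.Prime := ⟨hp⟩
  obtain ⟨D⟩ := nonempty_data p h4 h13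
  obtain ⟨k, hk⟩ : ∃ k, p = 4 * k + 1 := ⟨p / 4, by omega⟩
  rcases he with rfl | he
  · have h1 := D.hasPD
    rw [ZMod.card] at h1
    rw [pow_one]
    exact hasCBHR_of_hasPD _ (by omega) (by omega) h1
  · have h1 := D.hasPD_mul (e - 1) (by omega)
    rw [ZMod.card, ← mul_assoc, ← pow_succ, Nat.sub_add_cancel (by omega)] at h1
    refine hasCBHR_of_hasPD _ (by positivity) ?_ h1
    obtain ⟨f, rfl⟩ : ∃ f, e = f + 2 := ⟨e - 2, by omega⟩
    rw [pow_add, show (2 : ℕ) ^ 2 = 4 by norm_num, mul_assoc, mul_comm, mul_assoc]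
    exact Nat.mul_mod_right 4 _

end Pool.Agent.Lib.MP_db622c_co.P2
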