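import Pool.Agent.Lib.MP_db622c_co.P2.Base

/-!
# P2-Form: the edges, listed by their round class

`EForm a b G R`: the edge `{a, b}` has board class `G` and round class `R`.
Every pair of distinct points has one of these forms (`form`).  For the same side edges take
`t = (x + y) / 2` (side `0`) resp. `t = (x + y) / 2 - c`, `z = (x - y) / 2 ≠ 0`
(`wr ((y - x) / (2 * s u)) = wr (z / s u)` by `wr_neg`); for the cross edges use `exists_dl`:
`y - x = (s 1 + ch z * s 0) * z`, `t = x + 2 * (ch z * s 0 * z)`; if `y - x = d1` then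
`z = dl d1 = δ`; the board class has second component `x + ch z * s 0 * z + wr z =
t - ch z * s 0 * z + wr z`.
-/

namespace Pool.Agent.Lib.MP_db622c_co.P2

open Pool.Agent.Lib.MP_db622c_co Pool.Agent.Lib.MP_db622c_co.CB

variable {F : Type} [Field F] [Fintype F] [DecidableEq F]

namespace PData

variable (D : PData F)

/-- the edge `{a, b}` has board class `G` and round class `R` -/
inductive EForm : Pt F → Pt F → Pt F → Pt F → Prop
  | A (t z : F) (hz : z ≠ 0) : EForm (0, some (t + z)) (0, some (t - z))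
      (T (D.wr (z / D.s 0)), some (t - D.wr (z / D.s 0))) (0, some t)
  | B (t z : F) (hz : z ≠ 0) : EForm (1, some (t + D.c + z)) (1, some (t + D.c - z))
      (T (D.wr (z / D.s 1)), some (t + D.c - D.wr (z / D.s 1))) (0, some t)
  | C (t : F) : EForm (0, none) (0, some t) (1, some t) (0, some t)
  | D' (t : F) : EForm (1, none) (1, some (t + D.c)) (1, some (t + D.c)) (0, some t)
  | E (t z : F) (hz : z ≠ 0) (hne : (D.s 1 + ch z * D.s 0) * z ≠ D.d1) :
      EForm (0, some (t - 2 * (ch z * D.s 0 * z))) (1, some (t + (D.s 1 - ch z * D.s 0) * z))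
      (T z, some (t - ch z * D.s 0 * z + D.wr z)) (1, some t)
  | G' (t : F) : EForm (0, some t) (1, some t) (1, none) (1, some t)
  | H (t : F) : EForm (1, none) (0, some (t + D.x1)) (0, some (t + D.x1)) (1, some t)
  | I (t : F) : EForm (0, none) (1, some (t + D.y1)) (0, some (t + D.y1)) (1, some t)
  | K (x : F) : EForm (0, some x) (1, some (x + D.d1))
      (T D.δ, some (x + ch D.δ * D.s 0 * D.δ + D.wr D.δ)) (1, none)
  | L : EForm (0, none) (1, none) (1, none) (1, none)

/-- edges of the same side, side `0` -/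
private theorem form_A (x y : F) (h : x ≠ y) :
    D.EForm (0, some x) (0, some y) (D.gs 0 x y) (0, some ((x + y) / 2)) := by
  have h2 := two_ne D.hF
  have hz : (x - y) / 2 ≠ 0 := div_ne_zero (sub_ne_zero.2 h) h2
  have hs := D.s_ne 0
  have e := EForm.A (D := D) ((x + y) / 2) ((x - y) / 2) hz
  have e1 : (x + y) / 2 + (x - y) / 2 = x := by field_simp; ring
  have e2 : (x + y) / 2 - (x - y) / 2 = y := by field_simp; ring
  have e3 : (y - x) / (2 * D.s 0) = -((x - y) / 2 / D.s 0) := by field_simp; ring
  have e4 : D.wr ((y - x) / (2 * D.s 0)) = D.wr ((x - y) / 2 / D.s 0) := by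
    rw [e3, D.wr_neg (div_ne_zero hz hs)]
  rw [e1, e2] at e
  unfold gs
  rw [e4]
  exact e

/-- edges of the same side, side `1` -/
private theorem form_B (x y : F) (h : x ≠ y) :
    D.EForm (1, some x) (1, some y) (D.gs 1 x y) (0, some ((x + y) / 2 - D.c)) := by
  have h2 := two_ne D.hF
  have hz : (x - y) / 2 ≠ 0 := div_ne_zero (sub_ne_zero.2 h) h2
  have hs := D.s_ne 1
  have e := EForm.B (D := D) ((x + y) / 2 - D.c) ((x - y) / 2) hz
  have e1 : (x + y) / 2 - D.c + D.c + (x - y) / 2 = x := by field_simp; ring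
  have e2 : (x + y) / 2 - D.c + D.c - (x - y) / 2 = y := by field_simp; ring
  have e5 : (x + y) / 2 - D.c + D.c = (x + y) / 2 := by ring
  have e3 : (y - x) / (2 * D.s 1) = -((x - y) / 2 / D.s 1) := by field_simp; ring
  have e4 : D.wr ((y - x) / (2 * D.s 1)) = D.wr ((x - y) / 2 / D.s 1) := by
    rw [e3, D.wr_neg (div_ne_zero hz hs)]
  rw [e1, e2, e5] at e
  unfold gs
  rw [e4]
  exact e

/-- cross edges -/
private theorem form_X (x y : F) :
    D.EForm (0, some x) (1, some y) (D.gc x y) (D.rc x y) := by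
  by_cases hxy : y = x
  · subst hxy
    have h1 : D.gc y y = (1, none) := by unfold gc; rw [if_pos rfl]
    have h2 : D.rc y y = (1, some y) := by
      unfold rc
      rw [sub_self, if_neg (Ne.symm D.d1_ne), D.dl_zero]
      simp
    rw [h1, h2]
    exact EForm.G' y
  · obtain ⟨z, hz, hd, hdl⟩ := D.exists_dl (sub_ne_zero.2 hxy)
    by_cases hd1 : y - x = D.d1
    · have hy : y = x + D.d1 := by rw [← hd1]; ring
      have h1 : D.gc x y = (T D.δ, some (x + ch D.δ * D.s 0 * D.δ + D.wr D.δ)) := by
        unfold gc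
        rw [if_neg hxy, hd1, D.dl_d1]
      have h2 : D.rc x y = (1, none) := by unfold rc; rw [if_pos hd1]
      rw [h1, h2, hy]
      exact EForm.K x
    · have h1 : D.gc x y = (T z, some (x + ch z * D.s 0 * z + D.wr z)) := by
        unfold gc
        rw [if_neg hxy, hdl]
      have h2 : D.rc x y = (1, some (x + 2 * (ch z * D.s 0 * z))) := by
        unfold rc
        rw [if_neg hd1, hdl]
      rw [h1, h2]
      have e := EForm.E (D := D) (x + 2 * (ch z * D.s 0 * z)) z hz (by rw [← hd]; exact hd1)
      have e1 : x + 2 * (ch z * D.s 0 * z) - 2 * (ch z * D.s 0 * z) = x := by ring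
      have e2 : x + 2 * (ch z * D.s 0 * z) + (D.s 1 - ch z * D.s 0) * z = y := by
        have : y = x + (D.s 1 + ch z * D.s 0) * z := by rw [← hd]; ring
        rw [this]; ring
      have e3 : x + 2 * (ch z * D.s 0 * z) - ch z * D.s 0 * z + D.wr z =
          x + ch z * D.s 0 * z + D.wr z := by ring
      rw [e1, e2, e3] at e
      exact e

/-- edges with one infinite end -/
private theorem form_N (u v : ZMod 2) (x : F) : D.EForm (u, none) (v, some x)
    (u + v + 1, some x)
    (if u = v then (0, some (if u = 0 then x else x - D.c))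
      else (1, some (if u = 0 then x - D.y1 else x - D.x1))) := by
  have hu : ∀ w : ZMod 2, w = 0 ∨ w = 1 := by decide
  have h01 : ¬ ((0 : ZMod 2) = 1) := by decide
  have h10 : ¬ ((1 : ZMod 2) = 0) := by decide
  rcases hu u with rfl | rfl <;> rcases hu v with rfl | rfl
  · have e1 : (0 : ZMod 2) + 0 + 1 = 1 := by decide
    rw [e1, if_pos rfl, if_pos rfl]
    exact EForm.C x
  · have e1 : (0 : ZMod 2) + 1 + 1 = 0 := by decide
    rw [e1, if_neg h01, if_pos rfl]
    have e := EForm.I (D := D) (x - D.y1)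
    rw [sub_add_cancel] at e
    exact e
  · have e1 : (1 : ZMod 2) + 0 + 1 = 0 := by decide
    rw [e1, if_neg h10, if_neg h10]
    have e := EForm.H (D := D) (x - D.x1)
    rw [sub_add_cancel] at e
    exact e
  · have e1 : (1 : ZMod 2) + 1 + 1 = 1 := by decide
    rw [e1, if_pos rfl, if_neg h10]
    have e := EForm.D' (D := D) (x - D.c)
    rw [sub_add_cancel] at e
    exact e

theorem form (j k : Pt F) (hjk : j ≠ k) :
    ∃ a b : Pt F, ((j = a ∧ k = b) ∨ (j = b ∧ k = a)) ∧ D.EForm a b (D.g j k) (D.r j k) := by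
  have hu : ∀ w : ZMod 2, w = 0 ∨ w = 1 := by decide
  have h01 : ¬ ((0 : ZMod 2) = 1) := by decide
  have h10 : ¬ ((1 : ZMod 2) = 0) := by decide
  obtain ⟨u, a⟩ := j
  obtain ⟨v, b⟩ := k
  rcases a with _ | x <;> rcases b with _ | y
  · rcases hu u with rfl | rfl <;> rcases hu v with rfl | rfl
    · exact absurd rfl hjk
    · exact ⟨_, _, Or.inl ⟨rfl, rfl⟩, EForm.L⟩
    · exact ⟨_, _, Or.inr ⟨rfl, rfl⟩, EForm.L⟩
    · exact absurd rfl hjk
  · exact ⟨_, _, Or.inl ⟨rfl, rfl⟩, D.form_N u v y⟩
  · refine ⟨_, _, Or.inr ⟨rfl, rfl⟩, ?_⟩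
    have e := D.form_N v u x
    have e1 : v + u + 1 = u + v + 1 := by rw [add_comm v u]
    rw [e1] at e
    have e2 : (if v = u then ((0 : ZMod 2), some (if v = 0 then x else x - D.c))
        else (1, some (if v = 0 then x - D.y1 else x - D.x1))) =
        D.r (u, some x) (v, none) := by
      show _ = (if u = v then ((0 : ZMod 2), some (if u = 0 then x else x - D.c))
        else (1, some (if v = 0 then x - D.y1 else x - D.x1)))
      by_cases huv : u = v
      · subst huv; rfl
      · rw [if_neg huv, if_neg (Ne.symm huv)]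
    rw [e2] at e
    exact e
  · have hne : u = v → x ≠ y := fun h h' => hjk (by rw [h, h'])
    rcases hu u with rfl | rfl <;> rcases hu v with rfl | rfl
    · refine ⟨_, _, Or.inl ⟨rfl, rfl⟩, ?_⟩
      have e := D.form_A x y (hne rfl)
      have e1 : D.g (0, some x) (0, some y) = D.gs 0 x y := by
        show (if (0 : ZMod 2) = 0 then D.gs 0 x y else
          if (0 : ZMod 2) = 0 then D.gc x y else D.gc y x) = _
        rw [if_pos rfl]
      have e2 : D.r (0, some x) (0, some y) = (0, some ((x + y) / 2)) := by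
        show (if (0 : ZMod 2) = 0 then ((0 : ZMod 2), some (if (0 : ZMod 2) = 0 then (x + y) / 2
          else (x + y) / 2 - D.c)) else if (0 : ZMod 2) = 0 then D.rc x y else D.rc y x) = _
        rw [if_pos rfl, if_pos rfl]
      rw [e1, e2]
      exact e
    · refine ⟨_, _, Or.inl ⟨rfl, rfl⟩, ?_⟩
      have e := D.form_X x y
      have e1 : D.g (0, some x) (1, some y) = D.gc x y := by
        show (if (0 : ZMod 2) = 1 then D.gs 0 x y else
          if (0 : ZMod 2) = 0 then D.gc x y else D.gc y x) = _
        rw [if_neg h01, if_pos rfl]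
      have e2 : D.r (0, some x) (1, some y) = D.rc x y := by
        show (if (0 : ZMod 2) = 1 then ((0 : ZMod 2), some (if (0 : ZMod 2) = 0 then (x + y) / 2
          else (x + y) / 2 - D.c)) else if (0 : ZMod 2) = 0 then D.rc x y else D.rc y x) = _
        rw [if_neg h01, if_pos rfl]
      rw [e1, e2]
      exact e
    · refine ⟨_, _, Or.inr ⟨rfl, rfl⟩, ?_⟩
      have e := D.form_X y x
      have e1 : D.g (1, some x) (0, some y) = D.gc y x := by
        show (if (1 : ZMod 2) = 0 then D.gs 1 x y else
          if (1 : ZMod 2) = 0 then D.gc x y else D.gc y x) = _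
        rw [if_neg h10, if_neg h10]
      have e2 : D.r (1, some x) (0, some y) = D.rc y x := by
        show (if (1 : ZMod 2) = 0 then ((0 : ZMod 2), some (if (1 : ZMod 2) = 0 then (x + y) / 2
          else (x + y) / 2 - D.c)) else if (1 : ZMod 2) = 0 then D.rc x y else D.rc y x) = _
        rw [if_neg h10, if_neg h10]
      rw [e1, e2]
      exact e
    · refine ⟨_, _, Or.inl ⟨rfl, rfl⟩, ?_⟩
      have e := D.form_B x y (hne rfl)
      have e1 : D.g (1, some x) (1, some y) = D.gs 1 x y := by
        show (if (1 : ZMod 2) = 1 then D.gs 1 x y else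
          if (1 : ZMod 2) = 0 then D.gc x y else D.gc y x) = _
        rw [if_pos rfl]
      have e2 : D.r (1, some x) (1, some y) = (0, some ((x + y) / 2 - D.c)) := by
        show (if (1 : ZMod 2) = 1 then ((0 : ZMod 2), some (if (1 : ZMod 2) = 0 then (x + y) / 2
          else (x + y) / 2 - D.c)) else if (1 : ZMod 2) = 0 then D.rc x y else D.rc y x) = _
        rw [if_pos rfl, if_neg h10]
      rw [e1, e2]
      exact e

end PData

end Pool.Agent.Lib.MP_db622c_co.P2
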