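import Pool.Agent.Lib.MP_db622c_co.P2.Base

/-!
# P2-OFr: the classes of the rounds form a one-factorization

Explicit partners `pr i j` (so `pr (r j k) j = k` for `j ≠ k`, which gives `inj`):
* class `(0, some t)`: `(0, x) ↔ (0, 2 t - x)` for `x ≠ t`, `(0, t) ↔ (0, none)`,
  `(1, x) ↔ (1, 2 (t + c) - x)` for `x ≠ t + c`, `(1, t + c) ↔ (1, none)`.
* class `(1, none)`: `(0, x) ↔ (1, x + d1)`, `(0, none) ↔ (1, none)`.
* class `(1, some t)`: `(0, t) ↔ (1, t)`; `(1, none) ↔ (0, t + x1)`; `(0, none) ↔ (1, t + y1)`;
  otherwise, for `z ≠ 0, δ`: `(0, t - 2 * ch z * s 0 * z) ↔ (1, t + (s 1 - ch z * s 0) * z)`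
  (for `z = δ` these are the points `(0, t + x1)`, `(1, t + y1)`, whose partners are the two
  points at infinity).  The parameter `z` is determined by the first point: `X = -2 * ch z * s 0 * z`
  has `χ X = χ (2 * s 0)` times `(χ z)^2 = 1`?  No: `χ X = χ (2 * s 0) * χ (ch z) * χ z = χ (2 * s 0) * χ z`
  (`χ (±1) = 1`), so `χ z = χ X * χ (2 * s 0)` and `z = - X / (2 * ch z * s 0)`.  By the second point:
  `Y = (s 1 - ch z * s 0) * z` has `χ Y = η * χ z` (`chi_coef`), so `χ z = η * χ Y` and
  `z = Y / (s 1 - ch z * s 0)`.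
For the cross edge `(0, x), (1, y)` with `y - x = (s 1 + ch z * s 0) * z` (`exists_dl`, `z ≠ 0`),
`z ≠ δ` (since `y - x ≠ d1 = (s 1 + ch δ * s 0) * δ`), the round class is `(1, some t)` with
`t = x + 2 * ch z * s 0 * z`, so `x = t - 2 * ch z * s 0 * z` and `y = t + (s 1 - ch z * s 0) * z`;
for `y = x` it is `(1, some x)` (`dl_zero`, `ch 0 = 0`, `d1_ne`).
Alternatively prove `inj` directly by cases; both are fine.
-/

namespace Pool.Agent.Lib.MP_db622c_co.P2

open Pool.Agent.Lib.MP_db622c_co Pool.Agent.Lib.MP_db622c_co.CB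

variable {F : Type} [Field F] [Fintype F] [DecidableEq F]

namespace PData

variable (D : PData F)

private theorem z2r {u v w : ZMod 2} (h1 : v ≠ u) (h2 : w ≠ u) : v = w := by
  revert u v w; decide

theorem dl_spec (d : F) : d = (D.s 1 + ch (D.dl d) * D.s 0) * D.dl d := by
  by_cases hd : d = 0
  · rw [hd, D.dl_zero, mul_zero]
  · obtain ⟨z, -, h1, h2⟩ := D.exists_dl hd
    rw [h2]; exact h1

include D in
theorem ch_mul_inj {z w : F} (h : ch z * z = ch w * w) : z = w := by
  by_cases hz : z = 0
  · by_cases hw : w = 0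
    · rw [hz, hw]
    · exfalso
      rw [hz, mul_zero] at h
      rcases ch_cases hw with ⟨-, h1, -⟩ | ⟨-, h1, -⟩ <;> rw [h1] at h
      · rw [one_mul] at h; exact hw h.symm
      · rw [neg_one_mul] at h; exact hw (neg_eq_zero.1 h.symm)
  · by_cases hw : w = 0
    · exfalso
      rw [hw, mul_zero] at h
      rcases ch_cases hz with ⟨-, h1, -⟩ | ⟨-, h1, -⟩ <;> rw [h1] at h
      · rw [one_mul] at h; exact hz h
      · rw [neg_one_mul] at h; exact hz (neg_eq_zero.1 h)
    · rcases ch_cases hz with ⟨h1, h2, -⟩ | ⟨h1, h2, -⟩ <;>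
        rcases ch_cases hw with ⟨k1, k2, -⟩ | ⟨k1, k2, -⟩ <;> rw [h2, k2] at h
      · simpa using h
      · exfalso
        rw [one_mul, neg_one_mul] at h
        rw [h, chi_neg D.hF, k1] at h1
        norm_num at h1
      · exfalso
        rw [one_mul, neg_one_mul] at h
        rw [← h, chi_neg D.hF, h1] at k1
        norm_num at k1
      · simpa using h

theorem coef_mul_inj {z w : F}
    (h : (D.s 1 - ch z * D.s 0) * z = (D.s 1 - ch w * D.s 0) * w) : z = w := by
  by_cases hz : z = 0
  · rw [hz, mul_zero] at h
    by_cases hw : w = 0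
    · rw [hz, hw]
    · exact absurd h.symm (mul_ne_zero (D.coef_ne hw).2 hw)
  · by_cases hw : w = 0
    · rw [hw, mul_zero] at h
      exact absurd h (mul_ne_zero (D.coef_ne hz).2 hz)
    · have h1 : quadraticChar F ((D.s 1 - ch z * D.s 0) * z) =
          quadraticChar F ((D.s 1 - ch w * D.s 0) * w) := by rw [h]
      rw [map_mul, map_mul, (D.chi_coef hz).2, (D.chi_coef hw).2] at h1
      have h2 : quadraticChar F z = quadraticChar F w := by
        rcases D.hη with h3 | h3 <;> rw [h3] at h1 <;> linarith
      have h3 : ch z = ch w := by unfold ch; rw [h2]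
      rw [h3] at h
      exact mul_left_cancel₀ (D.coef_ne hw).2 h

theorem r_symm (j k : Pt F) : D.r j k = D.r k j := by
  obtain ⟨u, x⟩ := j
  obtain ⟨v, y⟩ := k
  rcases x with _ | x <;> rcases y with _ | y
  · rfl
  · simp only [r]
    by_cases h : u = v
    · subst h; rfl
    · rw [if_neg h, if_neg (Ne.symm h)]
  · simp only [r]
    by_cases h : u = v
    · subst h; rfl
    · rw [if_neg h, if_neg (Ne.symm h)]
  · simp only [r]
    by_cases h : u = v
    · subst h; simp only [if_true, add_comm x y]
    · rw [if_neg h, if_neg (Ne.symm h)]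
      by_cases h0 : u = 0
      · have hv : v ≠ 0 := by rw [← h0]; exact Ne.symm h
        rw [if_pos h0, if_neg hv]
      · have hv : v = 0 := z2r (Ne.symm h) (Ne.symm h0)
        rw [if_neg h0, if_pos hv]

theorem rc_eq_some {x y t : F} (h : D.rc x y = (1, some t)) :
    y - x ≠ D.d1 ∧ t = x + 2 * (ch (D.dl (y - x)) * D.s 0 * D.dl (y - x)) := by
  unfold rc at h
  by_cases h1 : y - x = D.d1
  · rw [if_pos h1] at h
    simp at h
  · rw [if_neg h1] at h
    refine ⟨h1, ?_⟩
    simpa using h.symm

theorem rc_fst (x y : F) : (D.rc x y).1 = 1 := by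
  unfold rc; split_ifs <;> rfl

/-- injectivity of the cross classes, first point fixed -/
theorem rc_inj_left {x y y' : F} (h : D.rc x y = D.rc x y') : y = y' := by
  have h2 := two_ne D.hF
  have h3 := D.s_ne 0
  by_cases h1 : y' - x = D.d1
  · have h4 : D.rc x y' = (1, none) := by unfold rc; rw [if_pos h1]
    rw [h4] at h
    unfold rc at h
    by_cases h5 : y - x = D.d1
    · have := h1.trans h5.symm
      exact (sub_left_injective this).symm
    · rw [if_neg h5] at h
      simp at h
  · have h4 : D.rc x y' = (1, some (x + 2 * (ch (D.dl (y' - x)) * D.s 0 * D.dl (y' - x)))) := by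
      unfold rc; rw [if_neg h1]
    rw [h4] at h
    obtain ⟨h5, h6⟩ := D.rc_eq_some h
    have h7 : ch (D.dl (y' - x)) * D.dl (y' - x) = ch (D.dl (y - x)) * D.dl (y - x) := by
      apply mul_left_cancel₀ h3
      apply mul_left_cancel₀ h2
      linear_combination h6
    have h8 := D.ch_mul_inj h7
    have h9 := D.dl_spec (y - x)
    have h10 := D.dl_spec (y' - x)
    rw [h8] at h10
    have := h9.trans h10.symm
    exact sub_left_injective this

/-- injectivity of the cross classes, second point fixed -/
theorem rc_inj_right {x x' y : F} (h : D.rc x y = D.rc x' y) : x = x' := by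
  by_cases h1 : y - x' = D.d1
  · have h4 : D.rc x' y = (1, none) := by unfold rc; rw [if_pos h1]
    rw [h4] at h
    unfold rc at h
    by_cases h5 : y - x = D.d1
    · have := h1.trans h5.symm
      exact (sub_right_injective this).symm
    · rw [if_neg h5] at h
      simp at h
  · have h4 : D.rc x' y = (1, some (x' + 2 * (ch (D.dl (y - x')) * D.s 0 * D.dl (y - x')))) := by
      unfold rc; rw [if_neg h1]
    rw [h4] at h
    obtain ⟨h5, h6⟩ := D.rc_eq_some h
    have h9 := D.dl_spec (y - x)
    have h10 := D.dl_spec (y - x')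
    have h7 : (D.s 1 - ch (D.dl (y - x)) * D.s 0) * D.dl (y - x) =
        (D.s 1 - ch (D.dl (y - x')) * D.s 0) * D.dl (y - x') := by
      linear_combination h10 - h9 + h6
    have h8 := D.coef_mul_inj h7
    rw [h8] at h9
    have := h9.trans h10.symm
    exact sub_right_injective this

/-- the class of the cross edges from `(0, x)` is not the one of `(0, x), (1, none)` -/
theorem rc_ne_x1 {x y : F} (h : D.rc x y = (1, some (x - D.x1))) : False := by
  have h2 := two_ne D.hF
  have h3 := D.s_ne 0
  obtain ⟨h5, h6⟩ := D.rc_eq_some h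
  have h7 : ch (D.dl (y - x)) * D.dl (y - x) = ch D.δ * D.δ := by
    apply mul_left_cancel₀ h3
    apply mul_left_cancel₀ h2
    unfold x1 at h6
    linear_combination -h6
  have h8 := D.ch_mul_inj h7
  apply h5
  have h9 := D.dl_spec (y - x)
  rw [h8] at h9
  rw [h9]; rfl

theorem rc_ne_y1 {x y : F} (h : D.rc x y = (1, some (y - D.y1))) : False := by
  obtain ⟨h5, h6⟩ := D.rc_eq_some h
  have h9 := D.dl_spec (y - x)
  have h7 : (D.s 1 - ch (D.dl (y - x)) * D.s 0) * D.dl (y - x) =
      (D.s 1 - ch D.δ * D.s 0) * D.δ := by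
    unfold y1 at h6
    linear_combination h6 - h9
  have h8 := D.coef_mul_inj h7
  apply h5
  rw [h8] at h9
  rw [h9]; rfl

theorem r_ne (j k : Pt F) : D.r j k ≠ 0 := by
  intro h
  have h0 : (0 : Pt F) = ((0 : ZMod 2), (none : Option F)) := rfl
  rw [h0] at h
  obtain ⟨u, x⟩ := j
  obtain ⟨v, y⟩ := k
  rcases x with _ | x <;> rcases y with _ | y <;> simp only [r] at h
  · simp at h
  · split_ifs at h <;> simp at h
  · split_ifs at h <;> simp at h
  · by_cases h1 : u = v
    · rw [if_pos h1] at h; simp at h
    · rw [if_neg h1] at h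
      by_cases h2 : u = 0
      · rw [if_pos h2] at h
        have := D.rc_fst x y
        rw [h] at this
        simp at this
      · rw [if_neg h2] at h
        have := D.rc_fst y x
        rw [h] at this
        simp at this

private theorem one_ne' : (1 : ZMod 2) ≠ 0 := by decide

/-- the classes of the edges at the point at infinity -/
theorem inj_none (u v v' : ZMod 2) (y y' : Option F) (h1 : (v, y) ≠ (u, (none : Option F)))
    (h2 : (v', y') ≠ (u, (none : Option F))) (h : D.r (u, none) (v, y) = D.r (u, none) (v', y')) :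
    (v, y) = (v', y') := by
  rcases y with _ | y <;> rcases y' with _ | y'
  · have e1 : v ≠ u := fun h3 => h1 (by rw [h3])
    have e2 : v' ≠ u := fun h3 => h2 (by rw [h3])
    rw [z2r e1 e2]
  · simp only [r] at h
    by_cases h3 : u = v'
    · rw [if_pos h3] at h; simp at h
    · rw [if_neg h3] at h; simp at h
  · simp only [r] at h
    by_cases h3 : u = v
    · rw [if_pos h3] at h; simp at h
    · rw [if_neg h3] at h; simp at h
  · simp only [r] at h
    by_cases h3 : u = v <;> by_cases h4 : u = v'
    · rw [if_pos h3, if_pos h4] at h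
      rw [← h3, ← h4]
      have h5 := (Prod.ext_iff.1 h).2
      simp only [Option.some.injEq] at h5
      by_cases h6 : u = 0
      · rw [if_pos h6, if_pos h6] at h5; rw [h5]
      · rw [if_neg h6, if_neg h6] at h5; rw [sub_left_injective h5]
    · rw [if_pos h3, if_neg h4] at h
      exact absurd (Prod.ext_iff.1 h).1 (Ne.symm one_ne')
    · rw [if_neg h3, if_pos h4] at h
      exact absurd (Prod.ext_iff.1 h).1 one_ne'
    · rw [if_neg h3, if_neg h4] at h
      rw [z2r (Ne.symm h3) (Ne.symm h4)]
      have h5 := (Prod.ext_iff.1 h).2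
      simp only [Option.some.injEq] at h5
      by_cases h6 : u = 0
      · rw [if_pos h6, if_pos h6] at h5; rw [sub_left_injective h5]
      · rw [if_neg h6, if_neg h6] at h5; rw [sub_left_injective h5]

theorem r_same (u : ZMod 2) (x y : F) : D.r (u, some x) (u, some y) =
    (0, some (if u = 0 then (x + y) / 2 else (x + y) / 2 - D.c)) := by
  simp only [r, if_true]

theorem r_same_none (u : ZMod 2) (x : F) : D.r (u, some x) (u, none) =
    (0, some (if u = 0 then x else x - D.c)) := by
  simp only [r, if_true]

theorem r_cross_fst {u v : ZMod 2} (huv : u ≠ v) (x y : F) : (D.r (u, some x) (v, some y)).1 = 1 := by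
  simp only [r]
  rw [if_neg huv]
  split_ifs
  · exact D.rc_fst x y
  · exact D.rc_fst y x

theorem r_cross_none {u v : ZMod 2} (huv : u ≠ v) (x : F) : D.r (u, some x) (v, none) =
    (1, some (if v = 0 then x - D.y1 else x - D.x1)) := by
  simp only [r]
  rw [if_neg huv]

/-- a point at infinity and a finite point in the same class at `(u, x)` -/
theorem inj_mixed {u v v' : ZMod 2} {x y : F} (h2 : (v', some y) ≠ (u, some x))
    (h : D.r (u, some x) (v, none) = D.r (u, some x) (v', some y)) : False := by
  have h20 := two_ne D.hF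
  by_cases h3 : u = v
  · subst h3
    by_cases h4 : u = v'
    · subst h4
      rw [r_same, r_same_none] at h
      apply h2
      have h5 := (Prod.ext_iff.1 h).2
      simp only [Option.some.injEq] at h5
      have h6 : x = (x + y) / 2 := by
        by_cases h7 : u = 0
        · rw [if_pos h7, if_pos h7] at h5; exact h5
        · rw [if_neg h7, if_neg h7] at h5; exact sub_left_injective h5
      have h8 : y = x := by
        field_simp at h6
        linear_combination -h6
      rw [h8]
    · have h5 := D.r_cross_fst h4 x y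
      rw [← h, r_same_none] at h5
      exact one_ne' h5.symm
  · by_cases h4 : u = v'
    · subst h4
      rw [r_same, D.r_cross_none h3] at h
      exact absurd (Prod.ext_iff.1 h).1 one_ne'
    · have h5 : v' = v := z2r (Ne.symm h4) (Ne.symm h3)
      subst h5
      rw [D.r_cross_none h3] at h
      simp only [r] at h
      rw [if_neg h3] at h
      by_cases h6 : u = 0
      · have hv : v' ≠ 0 := by rw [← h6]; exact Ne.symm h3
        rw [if_neg hv, if_pos h6] at h
        exact D.rc_ne_x1 h.symm
      · have hv : v' = 0 := z2r (Ne.symm h3) (Ne.symm h6)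
        rw [if_pos hv, if_neg h6] at h
        exact D.rc_ne_y1 h.symm

/-- two finite points in the same class at `(u, x)` -/
theorem inj_some {u v v' : ZMod 2} {x y y' : F}
    (h : D.r (u, some x) (v, some y) = D.r (u, some x) (v', some y')) : v = v' ∧ y = y' := by
  have h20 := two_ne D.hF
  by_cases h3 : u = v
  · subst h3
    by_cases h4 : u = v'
    · subst h4
      refine ⟨rfl, ?_⟩
      rw [r_same, r_same] at h
      have h5 := (Prod.ext_iff.1 h).2
      simp only [Option.some.injEq] at h5
      have h6 : (x + y) / 2 = (x + y') / 2 := by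
        by_cases h7 : u = 0
        · rw [if_pos h7, if_pos h7] at h5; exact h5
        · rw [if_neg h7, if_neg h7] at h5; exact sub_left_injective h5
      have h8 := (div_left_inj' h20).1 h6
      exact add_left_cancel h8
    · have h5 := D.r_cross_fst h4 x y'
      rw [← h, r_same] at h5
      exact absurd h5.symm one_ne'
  · by_cases h4 : u = v'
    · subst h4
      have h5 := D.r_cross_fst h3 x y
      rw [h, r_same] at h5
      exact absurd h5.symm one_ne'
    · have h5 : v' = v := z2r (Ne.symm h4) (Ne.symm h3)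
      subst h5
      refine ⟨rfl, ?_⟩
      simp only [r] at h
      rw [if_neg h3, if_neg h3] at h
      by_cases h6 : u = 0
      · rw [if_pos h6, if_pos h6] at h
        exact D.rc_inj_left h
      · rw [if_neg h6, if_neg h6] at h
        exact D.rc_inj_right h

theorem isOF_r : IsOF D.r := by
  refine ⟨fun j k _ => D.r_ne j k, D.r_symm, ?_⟩
  rintro ⟨u, x⟩ ⟨v, y⟩ ⟨v', y'⟩ h1 h2 h
  rcases x with _ | x
  · exact D.inj_none u v v' y y' h1 h2 h
  · rcases y with _ | y <;> rcases y' with _ | y'
    · by_cases h3 : u = v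
      · subst h3
        by_cases h4 : u = v'
        · rw [h4]
        · rw [r_same_none, D.r_cross_none h4] at h
          exact absurd (Prod.ext_iff.1 h).1 (Ne.symm one_ne')
      · by_cases h4 : u = v'
        · subst h4
          rw [r_same_none, D.r_cross_none h3] at h
          exact absurd (Prod.ext_iff.1 h).1 one_ne'
        · rw [z2r (Ne.symm h3) (Ne.symm h4)]
    · exact (D.inj_mixed h2 h).elim
    · exact (D.inj_mixed h1 h.symm).elim
    · obtain ⟨h3, h4⟩ := D.inj_some h
      rw [h3, h4]

end PData

end Pool.Agent.Lib.MP_db622c_co.P2
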