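import Pool.Agent.Lib.MP_db622c_co.P2.Form

/-!
# P2-Orth: the boards and the rounds are orthogonal

By `form` both edges have a form with the same board class `G` and round class `R`; it
remains to compare two forms `EForm a b G R`, `EForm a' b' G R` (use `cases`/`rcases` on both,
then injectivity of the components; for equal `R` only the following pairs occur):
* `A, A`: `t = t'`, `T (wr (z / s 0)) = T ..`, `wr (z / s 0) = wr (z' / s 0)`, so `z' = ± z`
  (`wr_eq`): the same edge, perhaps with the ends exchanged.
* `A, B`: `m = wr (z / s 0)`, `m' = wr (z' / s 1)` are in `W` (`W_wr`), nonzero, of the same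
  character (`T_eq_iff`), and `t - m = t + c - m'`, so `m' = m + c`: contradiction to `hWc`.
* `A, C`: `m = 0`, contradiction.  `A, D'`: `T m = 1` and `m = -c`: but `χ c = 1` (`hc`, `chi_neg`).
* `B, B` as `A, A`.  `B, C`: `T m = 1` and `m = c`: contradiction.  `B, D'`: `m = 0`.
* `C, C`, `D', D'` trivial; `C, D'`: `t = t + c`, contradiction.
* `E, E`: `T z = T z'` gives `χ z = χ z'`, and `- ch z * s 0 * z + wr z = - ch z * s 0 * z' + wr z'`.
  Write `e = ch z`.  If `wr z = z` the value is `(1 - e * s 0) * z`, with character
  `χ (1 - e * s 0) * χ z = e * e = 1`; if `wr z = -z` it is `-(1 + e * s 0) * z`, with character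
  `- e * e = -1`.  So both are of the same kind and `z = z'`.
* `E, G'`: `some = none`.  `E, H`: `T z = 0`, i.e. `χ z = 1`, and `wr z - s 0 * z = x1`: `hx'`.
  `E, I`: the same with `hy'`.  `G', H`; `G', I`; : `none = some`.  `H, H`, `I, I`, `G', G'` trivial.
  `H, I`: `x1 = y1` contradicts `y1_eq`, `d1_ne`.
* `K, K`: `x = x'`.  `K, L`: `some = none`.  `L, L` trivial.
-/

namespace Pool.Agent.Lib.MP_db622c_co.P2

open Pool.Agent.Lib.MP_db622c_co Pool.Agent.Lib.MP_db622c_co.CB

variable {F : Type} [Field F] [Fintype F] [DecidableEq F]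

namespace PData

variable (D : PData F)

private theorem orth_same {s z z' : F} (hs : s ≠ 0) (h : D.wr (z / s) = D.wr (z' / s)) :
    z' = z ∨ z' = -z := by
  rcases D.wr_eq h with h1 | h1
  · left
    rwa [div_left_inj' hs] at h1
  · right
    rw [← neg_div, div_left_inj' hs] at h1
    exact h1

private theorem orth_AB {t z z' : F} (hz : z ≠ 0) (hz' : z' ≠ 0)
    (h1 : T (D.wr (z / D.s 0)) = T (D.wr (z' / D.s 1)))
    (h2 : t - D.wr (z / D.s 0) = t + D.c - D.wr (z' / D.s 1)) : False := by
  have a1 : z / D.s 0 ≠ 0 := div_ne_zero hz (D.s_ne 0)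
  have a2 : z' / D.s 1 ≠ 0 := div_ne_zero hz' (D.s_ne 1)
  have m1 := D.wr_ne a1
  have m2 := D.wr_ne a2
  have w1 := D.W_wr a1
  have w2 := D.W_wr a2
  have e : D.wr (z' / D.s 1) = D.wr (z / D.s 0) + D.c := by linear_combination h2
  have hχ := (T_eq_iff m1 m2).1 h1
  rw [e] at m2 w2 hχ
  exact D.hWc _ m1 m2 w1 w2 hχ.symm

private theorem orth_T0 {m : F} (h : quadraticChar F m = 1) : T m ≠ 1 := by
  unfold T
  rw [if_pos h]
  decide

private theorem orth_EE {z z' : F} (hz : z ≠ 0) (hz' : z' ≠ 0) (h1 : T z = T z') {t : F}
    (h2 : t - ch z * D.s 0 * z + D.wr z = t - ch z' * D.s 0 * z' + D.wr z') : z = z' := by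
  have hχ : quadraticChar F z = quadraticChar F z' := (T_eq_iff hz hz').1 h1
  have hch : ch z' = ch z := by unfold ch; rw [hχ]
  rw [hch] at h2
  -- characters
  have c1 : quadraticChar F (1 - ch z * D.s 0) * quadraticChar F z = 1 ∧
      quadraticChar F (1 + ch z * D.s 0) * quadraticChar F z = -1 ∧
      1 - ch z * D.s 0 ≠ 0 ∧ 1 + ch z * D.s 0 ≠ 0 := by
    rcases ch_cases hz with ⟨k1, k2, -⟩ | ⟨k1, k2, -⟩
    · rw [k2, one_mul, k1, D.h1 0, D.h2 0]
      exact ⟨by norm_num, by norm_num, D.one_sub_ne 0, D.one_add_ne 0⟩
    · rw [k2, neg_one_mul, sub_neg_eq_add, ← sub_eq_add_neg, k1, D.h1 0, D.h2 0]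
      exact ⟨by norm_num, by norm_num, D.one_add_ne 0, D.one_sub_ne 0⟩
  obtain ⟨p1, p2, n1, n2⟩ := c1
  rcases D.wr_cases z with hw | hw <;> rcases D.wr_cases z' with hw' | hw' <;> rw [hw, hw'] at h2
  · have : (1 - ch z * D.s 0) * (z - z') = 0 := by linear_combination h2
    rcases mul_eq_zero.1 this with h | h
    · exact absurd h n1
    · exact sub_eq_zero.1 h
  · exfalso
    have e : (1 - ch z * D.s 0) * z = -((1 + ch z * D.s 0) * z') := by linear_combination h2
    have e2 := congrArg (quadraticChar F) e
    rw [chi_neg D.hF, map_mul, map_mul, p1, ← hχ, p2] at e2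
    norm_num at e2
  · exfalso
    have e : -((1 + ch z * D.s 0) * z) = (1 - ch z * D.s 0) * z' := by linear_combination h2
    have e2 := congrArg (quadraticChar F) e
    rw [chi_neg D.hF, map_mul, map_mul, p2, ← hχ, p1] at e2
    norm_num at e2
  · have : (1 + ch z * D.s 0) * (z - z') = 0 := by linear_combination -h2
    rcases mul_eq_zero.1 this with h | h
    · exact absurd h n2
    · exact sub_eq_zero.1 h

private theorem orth_EH {t z x : F} (hx : ∀ z, quadraticChar F z = 1 → D.wr z - D.s 0 * z ≠ x)
    (hz : z ≠ 0) (h1 : T z = 0) (h2 : t - ch z * D.s 0 * z + D.wr z = t + x) : False := by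
  rcases ch_cases hz with ⟨k1, k2, -⟩ | ⟨-, -, k3⟩
  · rw [k2] at h2
    exact hx z k1 (by linear_combination h2)
  · rw [k3] at h1
    exact absurd h1 (by decide)

private theorem orth_key {a b G R a' b' G' R' : Pt F} (h : D.EForm a b G R)
    (h' : D.EForm a' b' G' R') (hG : G = G') (hR : R = R') :
    (a' = a ∧ b' = b) ∨ (a' = b ∧ b' = a) := by
  have h01 : ¬ ((0 : ZMod 2) = 1) := by decide
  have h10 : ¬ ((1 : ZMod 2) = 0) := by decide
  have hc := D.c_ne
  have hTc : T D.c ≠ 1 := orth_T0 D.hc
  have hTc' : T (-D.c) ≠ 1 := orth_T0 (by rw [chi_neg D.hF]; exact D.hc)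
  cases h with
  | A t z hz =>
    have mz := D.wr_ne (div_ne_zero hz (D.s_ne 0))
    cases h' with
    | A t' z' hz' =>
      simp only [Prod.mk.injEq, Option.some.injEq, true_and] at hG hR
      subst hR
      have hw : D.wr (z / D.s 0) = D.wr (z' / D.s 0) := by linear_combination -hG.2
      rcases D.orth_same (D.s_ne 0) hw with e | e
      · subst e; exact Or.inl ⟨rfl, rfl⟩
      · subst e; right; constructor <;> simp [sub_eq_add_neg]
    | B t' z' hz' =>
      simp only [Prod.mk.injEq, Option.some.injEq, true_and] at hG hR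
      subst hR
      exact (D.orth_AB hz hz' hG.1 hG.2).elim
    | C t' =>
      simp only [Prod.mk.injEq, Option.some.injEq, true_and] at hG hR
      subst hR
      exact absurd (by linear_combination -hG.2) mz
    | D' t' =>
      simp only [Prod.mk.injEq, Option.some.injEq, true_and] at hG hR
      subst hR
      have e : D.wr (z / D.s 0) = -D.c := by linear_combination -hG.2
      rw [e] at hG
      exact absurd hG.1 hTc'
    | E t' z' hz' hne => simp only [Prod.mk.injEq] at hR; exact absurd hR.1 h01
    | G' t' => simp only [Prod.mk.injEq] at hR; exact absurd hR.1 h01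
    | H t' => simp only [Prod.mk.injEq] at hR; exact absurd hR.1 h01
    | I t' => simp only [Prod.mk.injEq] at hR; exact absurd hR.1 h01
    | K t' => simp only [Prod.mk.injEq] at hR; exact absurd hR.1 h01
    | L => simp only [Prod.mk.injEq] at hR; exact absurd hR.1 h01
  | B t z hz =>
    have mz := D.wr_ne (div_ne_zero hz (D.s_ne 1))
    cases h' with
    | A t' z' hz' =>
      simp only [Prod.mk.injEq, Option.some.injEq, true_and] at hG hR
      subst hR
      exact (D.orth_AB hz' hz hG.1.symm hG.2.symm).elim
    | B t' z' hz' =>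
      simp only [Prod.mk.injEq, Option.some.injEq, true_and] at hG hR
      subst hR
      have hw : D.wr (z / D.s 1) = D.wr (z' / D.s 1) := by linear_combination -hG.2
      rcases D.orth_same (D.s_ne 1) hw with e | e
      · subst e; exact Or.inl ⟨rfl, rfl⟩
      · subst e; right; constructor <;> simp [sub_eq_add_neg]
    | C t' =>
      simp only [Prod.mk.injEq, Option.some.injEq, true_and] at hG hR
      subst hR
      have e : D.wr (z / D.s 1) = D.c := by linear_combination -hG.2
      rw [e] at hG
      exact absurd hG.1 hTc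
    | D' t' =>
      simp only [Prod.mk.injEq, Option.some.injEq, true_and] at hG hR
      subst hR
      exact absurd (by linear_combination -hG.2) mz
    | E t' z' hz' hne => simp only [Prod.mk.injEq] at hR; exact absurd hR.1 h01
    | G' t' => simp only [Prod.mk.injEq] at hR; exact absurd hR.1 h01
    | H t' => simp only [Prod.mk.injEq] at hR; exact absurd hR.1 h01
    | I t' => simp only [Prod.mk.injEq] at hR; exact absurd hR.1 h01
    | K t' => simp only [Prod.mk.injEq] at hR; exact absurd hR.1 h01
    | L => simp only [Prod.mk.injEq] at hR; exact absurd hR.1 h01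
  | C t =>
    cases h' with
    | A t' z' hz' =>
      simp only [Prod.mk.injEq, Option.some.injEq, true_and] at hG hR
      subst hR
      exact absurd (by linear_combination hG.2) (D.wr_ne (div_ne_zero hz' (D.s_ne 0)))
    | B t' z' hz' =>
      simp only [Prod.mk.injEq, Option.some.injEq, true_and] at hG hR
      subst hR
      have e : D.wr (z' / D.s 1) = D.c := by linear_combination hG.2
      rw [e] at hG
      exact absurd hG.1.symm hTc
    | C t' =>
      simp only [Prod.mk.injEq, Option.some.injEq, true_and] at hG hR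
      subst hR
      exact Or.inl ⟨rfl, rfl⟩
    | D' t' =>
      simp only [Prod.mk.injEq, Option.some.injEq, true_and] at hG hR
      subst hR
      exact absurd (by linear_combination -hG) hc
    | E t' z' hz' hne => simp only [Prod.mk.injEq] at hR; exact absurd hR.1 h01
    | G' t' => simp only [Prod.mk.injEq] at hR; exact absurd hR.1 h01
    | H t' => simp only [Prod.mk.injEq] at hR; exact absurd hR.1 h01
    | I t' => simp only [Prod.mk.injEq] at hR; exact absurd hR.1 h01
    | K t' => simp only [Prod.mk.injEq] at hR; exact absurd hR.1 h01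
    | L => simp only [Prod.mk.injEq] at hR; exact absurd hR.1 h01
  | D' t =>
    cases h' with
    | A t' z' hz' =>
      simp only [Prod.mk.injEq, Option.some.injEq, true_and] at hG hR
      subst hR
      have e : D.wr (z' / D.s 0) = -D.c := by linear_combination hG.2
      rw [e] at hG
      exact absurd hG.1.symm hTc'
    | B t' z' hz' =>
      simp only [Prod.mk.injEq, Option.some.injEq, true_and] at hG hR
      subst hR
      exact absurd (by linear_combination hG.2) (D.wr_ne (div_ne_zero hz' (D.s_ne 1)))
    | C t' =>
      simp only [Prod.mk.injEq, Option.some.injEq, true_and] at hG hR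
      subst hR
      exact absurd (by linear_combination hG) hc
    | D' t' =>
      simp only [Prod.mk.injEq, Option.some.injEq, true_and] at hG hR
      subst hR
      exact Or.inl ⟨rfl, rfl⟩
    | E t' z' hz' hne => simp only [Prod.mk.injEq] at hR; exact absurd hR.1 h01
    | G' t' => simp only [Prod.mk.injEq] at hR; exact absurd hR.1 h01
    | H t' => simp only [Prod.mk.injEq] at hR; exact absurd hR.1 h01
    | I t' => simp only [Prod.mk.injEq] at hR; exact absurd hR.1 h01
    | K t' => simp only [Prod.mk.injEq] at hR; exact absurd hR.1 h01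
    | L => simp only [Prod.mk.injEq] at hR; exact absurd hR.1 h01
  | E t z hz hne =>
    cases h' with
    | A t' z' hz' => simp only [Prod.mk.injEq] at hR; exact absurd hR.1 h10
    | B t' z' hz' => simp only [Prod.mk.injEq] at hR; exact absurd hR.1 h10
    | C t' => simp only [Prod.mk.injEq] at hR; exact absurd hR.1 h10
    | D' t' => simp only [Prod.mk.injEq] at hR; exact absurd hR.1 h10
    | E t' z' hz' hne' =>
      simp only [Prod.mk.injEq, Option.some.injEq, true_and] at hG hR
      subst hR
      have e := D.orth_EE hz hz' hG.1 hG.2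
      subst e
      exact Or.inl ⟨rfl, rfl⟩
    | G' t' => simp only [Prod.mk.injEq] at hG; exact absurd hG.2 (by simp)
    | H t' =>
      simp only [Prod.mk.injEq, Option.some.injEq, true_and] at hG hR
      subst hR
      exact (D.orth_EH D.hx' hz hG.1 hG.2).elim
    | I t' =>
      simp only [Prod.mk.injEq, Option.some.injEq, true_and] at hG hR
      subst hR
      exact (D.orth_EH D.hy' hz hG.1 hG.2).elim
    | K t' => simp only [Prod.mk.injEq] at hR; exact absurd hR.2 (by simp)
    | L => simp only [Prod.mk.injEq] at hR; exact absurd hR.2 (by simp)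
  | G' t =>
    cases h' with
    | A t' z' hz' => simp only [Prod.mk.injEq] at hR; exact absurd hR.1 h10
    | B t' z' hz' => simp only [Prod.mk.injEq] at hR; exact absurd hR.1 h10
    | C t' => simp only [Prod.mk.injEq] at hR; exact absurd hR.1 h10
    | D' t' => simp only [Prod.mk.injEq] at hR; exact absurd hR.1 h10
    | E t' z' hz' hne' => simp only [Prod.mk.injEq] at hG; exact absurd hG.2 (by simp)
    | G' t' =>
      simp only [Prod.mk.injEq, Option.some.injEq, true_and] at hR
      subst hR
      exact Or.inl ⟨rfl, rfl⟩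
    | H t' => simp only [Prod.mk.injEq] at hG; exact absurd hG.1 h10
    | I t' => simp only [Prod.mk.injEq] at hG; exact absurd hG.1 h10
    | K t' => simp only [Prod.mk.injEq] at hR; exact absurd hR.2 (by simp)
    | L => simp only [Prod.mk.injEq] at hR; exact absurd hR.2 (by simp)
  | H t =>
    cases h' with
    | A t' z' hz' => simp only [Prod.mk.injEq] at hR; exact absurd hR.1 h10
    | B t' z' hz' => simp only [Prod.mk.injEq] at hR; exact absurd hR.1 h10
    | C t' => simp only [Prod.mk.injEq] at hR; exact absurd hR.1 h10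
    | D' t' => simp only [Prod.mk.injEq] at hR; exact absurd hR.1 h10
    | E t' z' hz' hne' =>
      simp only [Prod.mk.injEq, Option.some.injEq, true_and] at hG hR
      subst hR
      exact (D.orth_EH D.hx' hz' hG.1.symm hG.2.symm).elim
    | G' t' => simp only [Prod.mk.injEq] at hG; exact absurd hG.1 h01
    | H t' =>
      simp only [Prod.mk.injEq, Option.some.injEq, true_and] at hR
      subst hR
      exact Or.inl ⟨rfl, rfl⟩
    | I t' =>
      simp only [Prod.mk.injEq, Option.some.injEq, true_and] at hG hR
      subst hR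
      exfalso
      have e := D.y1_eq
      exact D.d1_ne (by linear_combination -hG - e)
    | K t' => simp only [Prod.mk.injEq] at hR; exact absurd hR.2 (by simp)
    | L => simp only [Prod.mk.injEq] at hR; exact absurd hR.2 (by simp)
  | I t =>
    cases h' with
    | A t' z' hz' => simp only [Prod.mk.injEq] at hR; exact absurd hR.1 h10
    | B t' z' hz' => simp only [Prod.mk.injEq] at hR; exact absurd hR.1 h10
    | C t' => simp only [Prod.mk.injEq] at hR; exact absurd hR.1 h10
    | D' t' => simp only [Prod.mk.injEq] at hR; exact absurd hR.1 h10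
    | E t' z' hz' hne' =>
      simp only [Prod.mk.injEq, Option.some.injEq, true_and] at hG hR
      subst hR
      exact (D.orth_EH D.hy' hz' hG.1.symm hG.2.symm).elim
    | G' t' => simp only [Prod.mk.injEq] at hG; exact absurd hG.1 h01
    | H t' =>
      simp only [Prod.mk.injEq, Option.some.injEq, true_and] at hG hR
      subst hR
      exfalso
      have e := D.y1_eq
      exact D.d1_ne (by linear_combination hG - e)
    | I t' =>
      simp only [Prod.mk.injEq, Option.some.injEq, true_and] at hR
      subst hR
      exact Or.inl ⟨rfl, rfl⟩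
    | K t' => simp only [Prod.mk.injEq] at hR; exact absurd hR.2 (by simp)
    | L => simp only [Prod.mk.injEq] at hR; exact absurd hR.2 (by simp)
  | K t =>
    cases h' with
    | A t' z' hz' => simp only [Prod.mk.injEq] at hR; exact absurd hR.1 h10
    | B t' z' hz' => simp only [Prod.mk.injEq] at hR; exact absurd hR.1 h10
    | C t' => simp only [Prod.mk.injEq] at hR; exact absurd hR.1 h10
    | D' t' => simp only [Prod.mk.injEq] at hR; exact absurd hR.1 h10
    | E t' z' hz' hne' => simp only [Prod.mk.injEq] at hR; exact absurd hR.2 (by simp)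
    | G' t' => simp only [Prod.mk.injEq] at hR; exact absurd hR.2 (by simp)
    | H t' => simp only [Prod.mk.injEq] at hR; exact absurd hR.2 (by simp)
    | I t' => simp only [Prod.mk.injEq] at hR; exact absurd hR.2 (by simp)
    | K t' =>
      simp only [Prod.mk.injEq, Option.some.injEq, true_and] at hG
      have e : t = t' := by linear_combination hG
      subst e
      exact Or.inl ⟨rfl, rfl⟩
    | L => simp only [Prod.mk.injEq] at hG; exact absurd hG.2 (by simp)
  | L =>
    cases h' with
    | A t' z' hz' => simp only [Prod.mk.injEq] at hR; exact absurd hR.1 h10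
    | B t' z' hz' => simp only [Prod.mk.injEq] at hR; exact absurd hR.1 h10
    | C t' => simp only [Prod.mk.injEq] at hR; exact absurd hR.1 h10
    | D' t' => simp only [Prod.mk.injEq] at hR; exact absurd hR.1 h10
    | E t' z' hz' hne' => simp only [Prod.mk.injEq] at hR; exact absurd hR.2 (by simp)
    | G' t' => simp only [Prod.mk.injEq] at hR; exact absurd hR.2 (by simp)
    | H t' => simp only [Prod.mk.injEq] at hR; exact absurd hR.2 (by simp)
    | I t' => simp only [Prod.mk.injEq] at hR; exact absurd hR.2 (by simp)
    | K t' => simp only [Prod.mk.injEq] at hG; exact absurd hG.2 (by simp)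
    | L => exact Or.inl ⟨rfl, rfl⟩

theorem isOrth_gr : IsOrth D.g D.r := by
  intro j k j' k' hjk hjk' hg hr
  obtain ⟨a, b, hab, h⟩ := D.form j k hjk
  obtain ⟨a', b', hab', h'⟩ := D.form j' k' hjk'
  rcases D.orth_key h h' hg hr with ⟨e1, e2⟩ | ⟨e1, e2⟩ <;>
    rcases hab with ⟨rfl, rfl⟩ | ⟨rfl, rfl⟩ <;> rcases hab' with ⟨rfl, rfl⟩ | ⟨rfl, rfl⟩ <;>
    first
      | exact Or.inl e1
      | exact Or.inr e1
      | exact Or.inl e2
      | exact Or.inr e2

end PData

end Pool.Agent.Lib.MP_db622c_co.P2
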