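import Pool.Agent.Lib.MP_db622c_co.P2.Sh
import Pool.Agent.Lib.MP_db622c_co.P2.OFr
import Pool.Agent.Lib.MP_db622c_co.P2.Orth

/-!
# P2-HC: the one-factorization of the rounds off the matching `sh d1`

`hh j k` is the round class without the class `(1, none)`.
* `r_none`: for `j ≠ k`, if the round class of `{j, k}` has second component `none` then
  `k = sh d1 j` (from the definition of `r`: `(u, none), (v, none)` with `u ≠ v`, or a cross edge
  of difference `d1`); and conversely `r j (sh d1 j) = (1, none)`.
* `hh_eq`: for `NB (sh d1) j a`, `NB (sh d1) j' a'`: `hh j a = hh j' a'` iff the round classes are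
  equal.
* `isHC`: from `r_symm`, `hh_eq` and `D.isOF_r.inj`.
* `o1`: from `D.isOrth_gr` and `D.isOF_g.inj` (`IsOrth` gives `j' = j ∨ j' = a`; if `j' = j` then
  `g j a = g j a'` gives `a = a'`; if `j' = a` use `g_symm`).
* `o2`: `L = Lsw g (sh d)`, `d = (s 1 + ch z * s 0) * z`, `z ≠ 0`.  If neither pair is an edge of
  `sh d`, `L` is `g` on both (`Lsw_off`): `o1`.  If exactly one is, one value is `0` (`Lsw_sw`) and
  the other is not (`D.isOF_g.ne`).  If both are: `hh` of the edge `(0, x), (1, x + d)` is
  `(1, x + 2 * (ch z * s 0 * z))` if `d ≠ d1` (`dl_mul`), which determines `x`; if `d = d1` the pairs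
  are not `NB`; the edge at `(u, none)` is an edge of `sh d1`, so it is not `NB`.
-/

namespace Pool.Agent.Lib.MP_db622c_co.P2

open Pool.Agent.Lib.MP_db622c_co Pool.Agent.Lib.MP_db622c_co.CB

variable {F : Type} [Field F] [Fintype F] [DecidableEq F]

namespace PData

variable (D : PData F)

/-- the classes of the rounds without `(1, none)`, as elements of `ZMod 2 × F` -/
def hh (j k : Pt F) : ZMod 2 × F := ((D.r j k).1, (D.r j k).2.getD 0)

private theorem z2 (u : ZMod 2) : u = 0 ∨ u = 1 := by
  revert u
  decide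

private theorem z2_ne {u v : ZMod 2} (h : u ≠ v) : v = u + 1 := by
  revert u v
  decide

/-- the round classes without second component -/
private theorem r_none {j k : Pt F} (hjk : k ≠ j) (h : (D.r j k).2 = none) : k = sh D.d1 j := by
  obtain ⟨u, x⟩ := j
  obtain ⟨v, y⟩ := k
  rcases x with _ | x <;> rcases y with _ | y
  · have huv : u ≠ v := by
      rintro rfl
      exact hjk rfl
    rw [z2_ne huv]
    rfl
  · exfalso
    unfold r at h
    simp only at h
    split_ifs at h <;> simp at h
  · exfalso
    unfold r at h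
    simp only at h
    split_ifs at h <;> simp at h
  · unfold r at h
    simp only at h
    by_cases huv : u = v
    · rw [if_pos huv] at h
      simp at h
    · rw [if_neg huv] at h
      by_cases hu : u = 0
      · rw [if_pos hu] at h
        unfold rc at h
        by_cases hd : y - x = D.d1
        · have hv : v = 1 := by
            rcases z2 v with h1 | h1
            · exact absurd (hu.trans h1.symm) huv
            · exact h1
          have hy : y = x + D.d1 := by rw [← hd]; ring
          subst hu hv hy
          unfold sh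
          simp
        · rw [if_neg hd] at h
          simp at h
      · rw [if_neg hu] at h
        unfold rc at h
        by_cases hd : x - y = D.d1
        · have hu1 : u = 1 := by
            rcases z2 u with h1 | h1
            · exact absurd h1 hu
            · exact h1
          have hv : v = 0 := by
            rcases z2 v with h1 | h1
            · exact h1
            · exact absurd (hu1.trans h1.symm) huv
          have hy : y = x - D.d1 := by rw [← hd]; ring
          subst hu1 hv hy
          unfold sh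
          simp only [one_ne_zero, if_false]
          congr 1
        · rw [if_neg hd] at h
          simp at h

private theorem hh_eq {j a j' a' : Pt F} (hn : NB (sh D.d1) j a) (hn' : NB (sh D.d1) j' a')
    (h : D.hh j a = D.hh j' a') : D.r j a = D.r j' a' := by
  have k1 : (D.r j a).2 ≠ none := fun h0 => hn.2 (D.r_none hn.1 h0)
  have k2 : (D.r j' a').2 ≠ none := fun h0 => hn'.2 (D.r_none hn'.1 h0)
  obtain ⟨t, ht⟩ := Option.ne_none_iff_exists'.1 k1
  obtain ⟨t', ht'⟩ := Option.ne_none_iff_exists'.1 k2
  unfold hh at h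
  rw [ht, ht', Prod.mk.injEq] at h
  obtain ⟨h1, h2⟩ := h
  simp only [Option.getD_some] at h2
  exact Prod.ext h1 (by rw [ht, ht', h2])

theorem isHC_hh : IsHC D.hh (sh D.d1) := by
  refine ⟨?_, ?_⟩
  · intro j k
    unfold hh
    rw [D.r_symm j k]
  · intro j a b ha ha' hb hb' h
    exact D.isOF_r.inj j a b ha hb (D.hh_eq ⟨ha, ha'⟩ ⟨hb, hb'⟩ h)

private theorem o1' {j a j' a' : Pt F} (hn : a ≠ j) (hn' : a' ≠ j')
    (hg : D.g j a = D.g j' a') (hr : D.r j a = D.r j' a') : SP j a j' a' := by
  rcases D.isOrth_gr j a j' a' hn.symm hn'.symm hg hr with h | h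
  · subst h
    exact Or.inl ⟨rfl, (D.isOF_g.inj j' a a' hn hn' hg).symm⟩
  · subst h
    rw [D.g_symm j j'] at hg
    exact Or.inr ⟨rfl, (D.isOF_g.inj j' j a' hn.symm hn' hg).symm⟩

theorem o1 (j a j' a' : Pt F) (hn : NB (sh D.d1) j a) (hn' : NB (sh D.d1) j' a')
    (hg : D.g j a = D.g j' a') (hr : D.hh j a = D.hh j' a') : SP j a j' a' :=
  D.o1' hn.1 hn'.1 hg (D.hh_eq hn hn' hr)

/-- the edges of `sh d` which are not edges of `sh d1` -/
private theorem sh_edge (d : F) (j : Pt F) (h : sh d j ≠ sh D.d1 j) : ∃ x : F,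
    ((j = (0, some x) ∧ sh d j = (1, some (x + d))) ∨ (j = (1, some (x + d)) ∧ sh d j = (0, some x))) ∧
      D.r j (sh d j) = (1, some (x + 2 * (ch (D.dl d) * D.s 0 * D.dl d))) := by
  obtain ⟨u, x⟩ := j
  rcases x with _ | x
  · exact absurd rfl h
  · rcases z2 u with rfl | rfl
    · have e : sh d ((0 : ZMod 2), some x) = (1, some (x + d)) := by
        unfold sh
        simp
      have hd : d ≠ D.d1 := by
        rintro rfl
        exact h rfl
      refine ⟨x, Or.inl ⟨rfl, e⟩, ?_⟩
      rw [e]
      unfold r
      simp only [zero_ne_one, if_false, if_true]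
      unfold rc
      rw [add_sub_cancel_left, if_neg hd]
    · have e : sh d ((1 : ZMod 2), some x) = (0, some (x - d)) := by
        unfold sh
        simp only [one_ne_zero, if_false]
        congr 1
      have hd : d ≠ D.d1 := by
        rintro rfl
        exact h rfl
      refine ⟨x - d, Or.inr ⟨by rw [sub_add_cancel], e⟩, ?_⟩
      rw [e]
      unfold r
      simp only [one_ne_zero, if_false]
      unfold rc
      rw [sub_sub_cancel, if_neg hd]

theorem o2 (z : F) (hz : z ≠ 0) (j a j' a' : Pt F) (hn : NB (sh D.d1) j a)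
    (hn' : NB (sh D.d1) j' a')
    (hg : Lsw D.g (sh ((D.s 1 + ch z * D.s 0) * z)) j a
      = Lsw D.g (sh ((D.s 1 + ch z * D.s 0) * z)) j' a')
    (hr : D.hh j a = D.hh j' a') : SP j a j' a' := by
  have hrb := D.isRB_sh z hz
  set d := (D.s 1 + ch z * D.s 0) * z with hd
  by_cases h1 : a = sh d j
  · by_cases h2 : a' = sh d j'
    · have hr' := D.hh_eq hn hn' hr
      subst h1 h2
      obtain ⟨x, hx, hx'⟩ := D.sh_edge d j hn.2
      obtain ⟨y, hy, hy'⟩ := D.sh_edge d j' hn'.2
      rw [hx', hy', Prod.mk.injEq, Option.some.injEq] at hr'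
      have hxy : x = y := add_right_cancel hr'.2
      subst hxy
      rcases hx with ⟨e1, e2⟩ | ⟨e1, e2⟩ <;> rcases hy with ⟨f1, f2⟩ | ⟨f1, f2⟩
      · exact Or.inl ⟨f1.trans e1.symm, f2.trans e2.symm⟩
      · exact Or.inr ⟨f1.trans e2.symm, f2.trans e1.symm⟩
      · exact Or.inr ⟨f1.trans e2.symm, f2.trans e1.symm⟩
      · exact Or.inl ⟨f1.trans e1.symm, f2.trans e2.symm⟩
    · exfalso
      rw [h1, Lsw_sw hrb, Lsw_off hn'.1 h2] at hg
      exact D.isOF_g.ne j' a' hn'.1.symm hg.symm
  · by_cases h2 : a' = sh d j'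
    · exfalso
      rw [h2, Lsw_sw hrb, Lsw_off hn.1 h1] at hg
      exact D.isOF_g.ne j a hn.1.symm hg
    · rw [Lsw_off hn.1 h1, Lsw_off hn'.1 h2] at hg
      exact D.o1 j a j' a' hn hn' hg hr

end PData

end Pool.Agent.Lib.MP_db622c_co.P2
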