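import Pool.Agent.Lib.MP_db622c_co.P2.Base

/-!
# P2-Had: the Paley matrix of the second kind (normalised) is a Hadamard matrix

All rows, with `χ = quadraticChar F`, `χ (-1) = 1`, `∑ x, χ (x - a) = 0`,
`∑ x, χ (x - a) * χ (x - b) = -1` for `a ≠ b` (see `pb_corr`, `pb_sum`, `isH_SP'` in
`CB/PaleyBase.lean` for the same computation when `card F % 4 = 3`; there
`jacobiSum_nontrivial_inv` is used).  Sum over the two sides `u = 0, 1` and over `x : Option F`
(`Fintype.sum_prod_type`, `Fintype.sum_option`, `Fin.sum_univ_two` for `ZMod 2`):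
* `(0,a), (0,b)`: side `0`: `-1`, with the corrections `χ(a-b) + χ(b-a)`; side `1`: `-1` with the
  corrections `- χ(a-b) - χ(b-a)`; infinity: `1 + 1`.  Total `0`.
* `(1,a), (1,b)`: side `0`: `-1 - χ(a-b) - χ(b-a)`, side `1`: `-1 + χ(a-b) + χ(b-a)`, infinity `2`.
* `(0,a), (1,b)`, `a ≠ b`: side `0`: `-1 + χ(a-b) - χ(b-a) = -1`; side `1`: `1 + χ(a-b) - χ(b-a) = 1`;
  infinity: `1 - 1`.
* `(0,a), (1,a)`: side `0`: `(q-1) - 1`; side `1`: `-(q-1) + 1`; infinity `0`.
* the row `(0, none)` of ones and `(0,a)`: `(0 + 1) + (0 - 1) + (1 - 1)`; with `(1,a)`: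
  `(0 - 1) + (0 - 1) + 2`; with `(1, none)`: `q - q - 1 + 1`.
* `(1, none)` and `(0,a)`: `1 + 1 - 2`; `(1, none)` and `(1,a)`: `-1 + 1 + (-1 + 1)`.
-/

namespace Pool.Agent.Lib.MP_db622c_co.P2

open Pool.Agent.Lib.MP_db622c_co Pool.Agent.Lib.MP_db622c_co.CB

variable {F : Type} [Field F] [Fintype F] [DecidableEq F]

/-- a finite part of a row -/
private def RR (e c : ℤ) (a x : F) : ℤ := e * quadraticChar F (x - a) + (if x = a then c else 0)

omit [Field F] [DecidableEq F] in
private theorem sumPt (f : Pt F → ℤ) : ∑ j, f j =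
    f (0, none) + f (1, none) + ∑ x, f (0, some x) + ∑ x, f (1, some x) := by
  have h1 : ∀ g : ZMod 2 → ℤ, ∑ u : ZMod 2, g u = g 0 + g 1 := fun g => Fin.sum_univ_two g
  rw [Fintype.sum_prod_type, h1, Fintype.sum_option, Fintype.sum_option]
  ring

private theorem sd0 : sd 0 = 1 := rfl
private theorem sd1 : sd 1 = -1 := rfl

private theorem S2_0 (a x : F) (u : ZMod 2) :
    S2 (F := F) (0, some a) (u, some x) = RR 1 (sd u) a x := by
  unfold RR
  by_cases h : x = a
  · simp [S2, h]
  · simp [S2, h]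

private theorem S2_1 (a x : F) (u : ZMod 2) :
    S2 (F := F) (1, some a) (u, some x) = RR (sd u) (-1) a x := by
  unfold RR
  by_cases h : x = a
  · simp [S2, h]
  · simp [S2, h]

private theorem sum0 (h1 : Fintype.card F % 4 = 1) (s : F) : ∑ x : F, quadraticChar F (x - s) = 0 := by
  rw [← quadraticChar_sum_zero (char_ne h1)]
  exact Fintype.sum_equiv (Equiv.subRight s) _ _ (fun z => rfl)

private theorem corr0 (hF : Fintype.card F % 4 = 1) {c : F} (hc : c ≠ 0) :
    ∑ z : F, quadraticChar F z * quadraticChar F (z + c) = -1 := by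
  have h1 : jacobiSum (quadraticChar F) (quadraticChar F)⁻¹ = - quadraticChar F (-1) :=
    jacobiSum_nontrivial_inv (quadraticChar_ne_one (char_ne hF))
  rw [(quadraticChar_isQuadratic F).inv, jacobiSum] at h1
  have hc' : (-c : F) ≠ 0 := neg_ne_zero.2 hc
  have h2 : ∑ z : F, quadraticChar F z * quadraticChar F (z + c) = ∑ x : F, quadraticChar F (-1) * (quadraticChar F x * quadraticChar F (1 - x)) := by
    refine (Fintype.sum_equiv (Equiv.mulLeft₀ (-c) hc') _ _ (fun x => ?_)).symm
    have e1 : (Equiv.mulLeft₀ (-c) hc') x = -1 * (c * x) := by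
      simp
    have e2 : (-1 * (c * x) + c : F) = c * (1 - x) := by ring
    rw [e1, e2, map_mul, map_mul, map_mul]
    have h3 := quadraticChar_sq_one (F := F) hc
    rw [pow_two] at h3
    linear_combination (-(quadraticChar F (-1) * (quadraticChar F x * quadraticChar F (1 - x)))) * h3
  rw [h2, ← Finset.mul_sum, h1, chi_neg_one hF]
  norm_num

private theorem corr (hF : Fintype.card F % 4 = 1) {s s' : F} (hss : s ≠ s') :
    ∑ x : F, quadraticChar F (x - s) * quadraticChar F (x - s') = -1 := by
  rw [← corr0 hF (sub_ne_zero.2 hss)]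
  refine Fintype.sum_equiv (Equiv.subRight s) _ _ (fun x => ?_)
  show quadraticChar F (x - s) * quadraticChar F (x - s') = quadraticChar F (x - s) * quadraticChar F (x - s + (s - s'))
  congr 2; ring

private theorem sumR (hF : Fintype.card F % 4 = 1) (e c : ℤ) (a : F) :
    ∑ x, RR e c a x = c := by
  unfold RR
  rw [Finset.sum_add_distrib, ← Finset.mul_sum, sum0 hF, Finset.sum_ite_eq' Finset.univ a]
  simp

private theorem RR_mul (e c e' c' : ℤ) (a b x : F) :
    RR e c a x * RR e' c' b x = (e * e') * (quadraticChar F (x - a) * quadraticChar F (x - b))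
      + (if x = a then c * e' * quadraticChar F (a - b) else 0)
      + (if x = b then c' * e * quadraticChar F (b - a) else 0)
      + (if x = a then (if a = b then c * c' else 0) else 0) := by
  unfold RR
  by_cases h1 : x = a
  · by_cases h2 : x = b
    · subst h1; subst h2
      simp
    · subst h1
      simp [h2]
      ring
  · by_cases h2 : x = b
    · subst h2
      simp [h1]
      ring
    · simp [h1, h2]
      ring

private theorem sumRR_ne (hF : Fintype.card F % 4 = 1) (e c e' c' : ℤ) {a b : F} (hab : a ≠ b) :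
    ∑ x, RR e c a x * RR e' c' b x = -(e * e') + (c * e' + c' * e) * quadraticChar F (a - b) := by
  rw [Finset.sum_congr rfl (fun x _ => RR_mul e c e' c' a b x), Finset.sum_add_distrib,
    Finset.sum_add_distrib, Finset.sum_add_distrib, ← Finset.mul_sum, corr hF hab,
    Finset.sum_ite_eq' Finset.univ a, Finset.sum_ite_eq' Finset.univ b,
    Finset.sum_ite_eq' Finset.univ a, ← neg_sub a b, chi_neg hF]
  simp only [Finset.mem_univ, if_true, if_neg hab]
  ring

private theorem sumRR_eq (e c e' c' : ℤ) (a : F) :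
    ∑ x, RR e c a x * RR e' c' a x =
      (e * e') * (∑ x : F, quadraticChar F (x - a) * quadraticChar F (x - a)) + c * c' := by
  rw [Finset.sum_congr rfl (fun x _ => RR_mul e c e' c' a a x), Finset.sum_add_distrib,
    Finset.sum_add_distrib, Finset.sum_add_distrib, ← Finset.mul_sum,
    Finset.sum_ite_eq' Finset.univ a, Finset.sum_ite_eq' Finset.univ a,
    Finset.sum_ite_eq' Finset.univ a]
  simp

private theorem orth_00 (hF : Fintype.card F % 4 = 1) {a b : F} (hab : a ≠ b) :
    ∑ j, S2 (F := F) (0, some a) j * S2 (F := F) (0, some b) j = 0 := by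
  rw [sumPt]
  simp only [S2_0, sumRR_ne hF _ _ _ _ hab]
  simp [S2, sd0, sd1]
  ring

private theorem orth_11 (hF : Fintype.card F % 4 = 1) {a b : F} (hab : a ≠ b) :
    ∑ j, S2 (F := F) (1, some a) j * S2 (F := F) (1, some b) j = 0 := by
  rw [sumPt]
  simp only [S2_1, sumRR_ne hF _ _ _ _ hab]
  simp [S2, sd0, sd1]
  ring

private theorem orth_01 (hF : Fintype.card F % 4 = 1) (a b : F) :
    ∑ j, S2 (F := F) (0, some a) j * S2 (F := F) (1, some b) j = 0 := by
  rw [sumPt]
  by_cases hab : a = b
  · subst hab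
    simp only [S2_1, S2_0, sumRR_eq]
    simp [S2, sd0, sd1]
    ring
  · simp only [S2_1, S2_0, sumRR_ne hF _ _ _ _ hab]
    simp [S2, sd0, sd1]

private theorem orth_n0 (hF : Fintype.card F % 4 = 1) (b : F) :
    ∑ j, S2 (F := F) (0, none) j * S2 (F := F) (0, some b) j = 0 := by
  rw [sumPt]
  have h1 : ∀ (u : ZMod 2) (x : F), S2 (F := F) (0, none) (u, some x) = 1 := fun u x => rfl
  simp only [S2_0, h1, one_mul, sumR hF]
  simp [S2, sd0, sd1]

private theorem orth_n1 (hF : Fintype.card F % 4 = 1) (b : F) :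
    ∑ j, S2 (F := F) (0, none) j * S2 (F := F) (1, some b) j = 0 := by
  rw [sumPt]
  have h1 : ∀ (u : ZMod 2) (x : F), S2 (F := F) (0, none) (u, some x) = 1 := fun u x => rfl
  simp only [S2_1, h1, one_mul, sumR hF]
  simp [S2]

private theorem orth_nn : ∑ j, S2 (F := F) (0, none) j * S2 (F := F) (1, none) j = 0 := by
  rw [sumPt]
  simp [S2, sd0, sd1]

private theorem orth_m0 (hF : Fintype.card F % 4 = 1) (b : F) :
    ∑ j, S2 (F := F) (1, none) j * S2 (F := F) (0, some b) j = 0 := by
  rw [sumPt]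
  have h1 : ∀ (u : ZMod 2) (x : F), S2 (F := F) (1, none) (u, some x) = sd u := fun u x => rfl
  simp only [S2_0, h1, ← Finset.mul_sum, sumR hF]
  simp [S2, sd0, sd1]

private theorem orth_m1 (hF : Fintype.card F % 4 = 1) (b : F) :
    ∑ j, S2 (F := F) (1, none) j * S2 (F := F) (1, some b) j = 0 := by
  rw [sumPt]
  have h1 : ∀ (u : ZMod 2) (x : F), S2 (F := F) (1, none) (u, some x) = sd u := fun u x => rfl
  simp only [S2_1, h1, ← Finset.mul_sum, sumR hF]
  simp [S2, sd0, sd1]

theorem isH_S2 (hF : Fintype.card F % 4 = 1) : IsH (A := Pt F) (J := Pt F) (S2 (F := F)) := by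
  have hz : ∀ i : ZMod 2, i = 0 ∨ i = 1 := by decide
  have hs : ∀ u : ZMod 2, sd u = 1 ∨ sd u = -1 := by decide
  refine ⟨?_, ?_, ?_⟩
  · rintro ⟨i, a⟩ ⟨u, x⟩
    rcases hz i with rfl | rfl <;> rcases a with _ | a <;> rcases x with _ | x
    · exact Or.inl rfl
    · exact Or.inl rfl
    · exact hs u
    · by_cases h : x = a
      · have : S2 (F := F) (0, some a) (u, some x) = sd u := by simp [S2, h]
        rw [this]; exact hs u
      · have : S2 (F := F) (0, some a) (u, some x) = quadraticChar F (x - a) := by simp [S2, h]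
        rw [this]; exact quadraticChar_dichotomy (sub_ne_zero.2 h)
    · have : S2 (F := F) (1, none) (u, none) = - sd u := rfl
      rw [this]
      rcases hs u with h | h <;> rw [h] <;> simp
    · exact hs u
    · exact Or.inl rfl
    · by_cases h : x = a
      · have : S2 (F := F) (1, some a) (u, some x) = -1 := by simp [S2, h]
        rw [this]; exact Or.inr rfl
      · have : S2 (F := F) (1, some a) (u, some x) = sd u * quadraticChar F (x - a) := by simp [S2, h]
        rw [this]
        rcases hs u with h1 | h1 <;> rcases quadraticChar_dichotomy (sub_ne_zero.2 h) with h2 | h2 <;>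
          rw [h1, h2] <;> simp
  · rintro ⟨u, _ | x⟩ <;> rfl
  · have comm : ∀ a b : Pt F, ∑ j, S2 (F := F) a j * S2 (F := F) b j = 0 →
        ∑ j, S2 (F := F) b j * S2 (F := F) a j = 0 := by
      intro a b h
      rw [← h]
      exact Finset.sum_congr rfl (fun j _ => mul_comm _ _)
    rintro ⟨i, a⟩ ⟨k, b⟩ hab
    rcases hz i with rfl | rfl <;> rcases hz k with rfl | rfl <;> rcases a with _ | a <;>
      rcases b with _ | b
    · exact absurd rfl hab
    · exact orth_n0 hF b
    · exact comm _ _ (orth_n0 hF a)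
    · exact orth_00 hF (fun h => hab (by rw [h]))
    · exact orth_nn
    · exact orth_n1 hF b
    · exact comm _ _ (orth_m0 hF a)
    · exact orth_01 hF a b
    · exact comm _ _ orth_nn
    · exact orth_m0 hF b
    · exact comm _ _ (orth_n1 hF a)
    · exact comm _ _ (orth_01 hF b a)
    · exact absurd rfl hab
    · exact orth_m1 hF b
    · exact comm _ _ (orth_m1 hF a)
    · exact orth_11 hF (fun h => hab (by rw [h]))

end Pool.Agent.Lib.MP_db622c_co.P2
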