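import Pool.Agent.Lib.MP_db622c_co.P2.Base

/-!
# P2-WW: two half sets

`W0 m` iff `m.val` is odd.  `W1` is `W0` switched on `R = {± i : 1 ≤ i ≤ L}`.
* half set: for `m ≠ 0`, `(-m).val = p - m.val` and `p` is odd, so exactly one of `m.val`, `(-m).val` is
  odd; `R` is symmetric.
* `W0 m`, `W0 (m + 1)` with `m, m + 1 ≠ 0`: `(m + 1).val = m.val + 1`, so not both are odd.
* `W1 m`, `W1 (m + 1)`, `m, m + 1 ≠ 0`: if `m ∈ R ↔ m + 1 ∈ R` the parities contradict each other as before.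
  Otherwise, as `m, m + 1` are nonzero, `{m, m + 1} = {L, L + 1}` or `{- (L + 1), - L}` (in terms of
  `m.val`: `m.val ≤ L < m.val + 1` or `m.val + 1 ≥ p - L > m.val`), and `χ L = 1`, `χ (L + 1) = -1`,
  `χ (-1) = 1` give `χ (m + 1) ≠ χ m`.
-/

namespace Pool.Agent.Lib.MP_db622c_co.P2

open Pool.Agent.Lib.MP_db622c_co Pool.Agent.Lib.MP_db622c_co.CB

/-- `m` is in `{± i : 1 ≤ i ≤ L}` -/
def InR (p L : ℕ) (m : ZMod p) : Prop := ∃ i : ℕ, 1 ≤ i ∧ i ≤ L ∧ (m = (i : ZMod p) ∨ m = -(i : ZMod p))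

theorem inR_neg {p L : ℕ} {m : ZMod p} (h : InR p L m) : InR p L (-m) := by
  obtain ⟨i, h1, h2, h3 | h3⟩ := h
  · exact ⟨i, h1, h2, Or.inr (by rw [h3])⟩
  · exact ⟨i, h1, h2, Or.inl (by rw [h3, neg_neg])⟩

theorem inR_iff {p L : ℕ} [Fact p.Prime] (h3L : 3 * L < p) {m : ZMod p} (hm : m ≠ 0) :
    InR p L m ↔ (m.val ≤ L ∨ p - L ≤ m.val) := by
  have hp : 0 < p := (Fact.out : p.Prime).pos
  haveI : NeZero p := ⟨hp.ne'⟩
  have hlt : m.val < p := ZMod.val_lt m
  have hpos : 0 < m.val := Nat.pos_of_ne_zero fun h => hm ((ZMod.val_eq_zero m).1 h)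
  have hcast : ((m.val : ℕ) : ZMod p) = m := ZMod.natCast_zmod_val m
  constructor
  · rintro ⟨i, h1, h2, h3 | h3⟩
    · left
      rw [h3, ZMod.val_natCast, Nat.mod_eq_of_lt (by omega)]
      exact h2
    · right
      have hi : ((i : ℕ) : ZMod p) ≠ 0 := by
        intro h
        rw [h3, h, neg_zero] at hm
        exact hm rfl
      haveI : NeZero ((i : ℕ) : ZMod p) := ⟨hi⟩
      rw [h3, ZMod.val_neg_of_ne_zero, ZMod.val_natCast, Nat.mod_eq_of_lt (by omega)]
      omega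
  · rintro (h | h)
    · exact ⟨m.val, hpos, h, Or.inl hcast.symm⟩
    · refine ⟨p - m.val, by omega, by omega, Or.inr ?_⟩
      rw [Nat.cast_sub hlt.le, hcast, ZMod.natCast_self, zero_sub, neg_neg]

theorem val_neg' {p : ℕ} [Fact p.Prime] {m : ZMod p} (hm : m ≠ 0) : (-m).val = p - m.val := by
  haveI : NeZero m := ⟨hm⟩
  exact ZMod.val_neg_of_ne_zero m

theorem val_succ {p : ℕ} [Fact p.Prime] {m : ZMod p} (hm : m + 1 ≠ 0) :
    (m + 1).val = m.val + 1 ∧ m.val + 1 < p := by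
  have hp : 0 < p := (Fact.out : p.Prime).pos
  haveI : NeZero p := ⟨hp.ne'⟩
  haveI : Fact (1 < p) := ⟨(Fact.out : p.Prime).one_lt⟩
  have hlt : m.val < p := ZMod.val_lt m
  have hcast : ((m.val : ℕ) : ZMod p) = m := ZMod.natCast_zmod_val m
  have h1 : m.val + 1 < p := by
    rcases Nat.lt_or_ge (m.val + 1) p with h | h
    · exact h
    · exfalso
      apply hm
      have h2 : m.val + 1 = p := by omega
      have h3 : ((m.val + 1 : ℕ) : ZMod p) = 0 := by rw [h2, ZMod.natCast_self]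
      rw [Nat.cast_add, hcast, Nat.cast_one] at h3
      exact h3
  refine ⟨?_, h1⟩
  rw [ZMod.val_add_of_lt (by rw [ZMod.val_one]; exact h1), ZMod.val_one]

theorem exists_WW (p L : ℕ) [Fact p.Prime] (h4 : p % 4 = 1) (hL : 1 ≤ L) (h3L : 3 * L < p)
    (hr : ∀ i : ℕ, 1 ≤ i → i ≤ L → quadraticChar (ZMod p) (i : ZMod p) = 1)
    (hn : quadraticChar (ZMod p) ((L + 1 : ℕ) : ZMod p) = -1) :
    ∃ W0 W1 : ZMod p → Bool,
      (∀ m, m ≠ 0 → W0 (-m) = !(W0 m)) ∧ (∀ m, m ≠ 0 → W1 (-m) = !(W1 m)) ∧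
      (∀ m, m ≠ 0 → m + 1 ≠ 0 → W0 m = true → W0 (m + 1) = true →
        quadraticChar (ZMod p) (m + 1) ≠ quadraticChar (ZMod p) m) ∧
      (∀ m, m ≠ 0 → m + 1 ≠ 0 → W1 m = true → W1 (m + 1) = true →
        quadraticChar (ZMod p) (m + 1) ≠ quadraticChar (ZMod p) m) ∧
      (∀ m, InR p L m → W1 m = !(W0 m)) ∧ (∀ m, ¬ InR p L m → W1 m = W0 m) := by
  classical
  have hodd : p % 2 = 1 := by omega
  have hp : 0 < p := (Fact.out : p.Prime).pos
  haveI : NeZero p := ⟨hp.ne'⟩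
  let W0 : ZMod p → Bool := fun m => decide (m.val % 2 = 1)
  let W1 : ZMod p → Bool := fun m => if InR p L m then !(W0 m) else W0 m
  have hW0 : ∀ m, W0 m = decide (m.val % 2 = 1) := fun m => rfl
  have hW1i : ∀ m, InR p L m → W1 m = !(W0 m) := fun m h => if_pos h
  have hW1o : ∀ m, ¬ InR p L m → W1 m = W0 m := fun m h => if_neg h
  have hneg : ∀ m, m ≠ 0 → W0 (-m) = !(W0 m) := by
    intro m hm
    have hlt : m.val < p := ZMod.val_lt m
    rw [hW0, hW0, val_neg' hm]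
    rcases Nat.mod_two_eq_zero_or_one m.val with h | h
    · have h2 : (p - m.val) % 2 = 1 := by omega
      simp [h, h2]
    · have h2 : (p - m.val) % 2 = 0 := by omega
      simp [h, h2]
  have hsucc : ∀ m, m + 1 ≠ 0 → W0 (m + 1) = !(W0 m) := by
    intro m hm
    obtain ⟨h1, -⟩ := val_succ hm
    rw [hW0, hW0, h1]
    rcases Nat.mod_two_eq_zero_or_one m.val with h | h
    · have h2 : (m.val + 1) % 2 = 1 := by omega
      simp [h, h2]
    · have h2 : (m.val + 1) % 2 = 0 := by omega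
      simp [h, h2]
  have hneg1 : quadraticChar (ZMod p) (-1) = 1 := by
    have hsq : IsSquare (-1 : ZMod p) := ZMod.exists_sq_eq_neg_one_iff.2 (by omega)
    have h0 : (-1 : ZMod p) ≠ 0 := neg_ne_zero.2 one_ne_zero
    exact (quadraticChar_one_iff_isSquare h0).2 hsq
  refine ⟨W0, W1, hneg, fun m hm => ?_, fun m hm hm1 h h' => ?_, fun m hm hm1 h h' => ?_,
    hW1i, hW1o⟩
  · by_cases hR : InR p L m
    · rw [hW1i _ hR, hW1i _ (inR_neg hR), hneg m hm]
    · have hR' : ¬ InR p L (-m) := fun h => hR (by simpa using inR_neg h)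
      rw [hW1o _ hR, hW1o _ hR', hneg m hm]
  · rw [hsucc m hm1, h] at h'
    exact absurd h' (by simp)
  · have hcast : ((m.val : ℕ) : ZMod p) = m := ZMod.natCast_zmod_val m
    obtain ⟨hv, hv1⟩ := val_succ hm1
    have hpos : 0 < m.val := Nat.pos_of_ne_zero fun h => hm ((ZMod.val_eq_zero m).1 h)
    by_cases hR : InR p L m
    · by_cases hR' : InR p L (m + 1)
      · rw [hW1i _ hR] at h
        rw [hW1i _ hR', hsucc m hm1, h] at h'
        exact absurd h' (by simp)
      · have h1 := (inR_iff h3L hm).1 hR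
        have h2 : ¬ ((m + 1).val ≤ L ∨ p - L ≤ (m + 1).val) := fun h => hR' ((inR_iff h3L hm1).2 h)
        rw [hv] at h2
        have h3 : m.val = L := by omega
        have h4 : m = ((L : ℕ) : ZMod p) := by rw [← h3, hcast]
        have h5 : m + 1 = ((L + 1 : ℕ) : ZMod p) := by rw [Nat.cast_add, ← h4, Nat.cast_one]
        rw [h5, hn, h4, hr L hL le_rfl]
        decide
    · by_cases hR' : InR p L (m + 1)
      · have h1 : ¬ (m.val ≤ L ∨ p - L ≤ m.val) := fun h => hR ((inR_iff h3L hm).2 h)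
        have h2 := (inR_iff h3L hm1).1 hR'
        rw [hv] at h2
        have h3 : m.val + 1 + L = p := by omega
        have h4 : m = -((L + 1 : ℕ) : ZMod p) := by
          rw [eq_neg_iff_add_eq_zero]
          have h5 : ((m.val + 1 + L : ℕ) : ZMod p) = 0 := by rw [h3, ZMod.natCast_self]
          rw [← h5]
          push_cast
          rw [hcast]
          ring
        have h5 : m + 1 = -((L : ℕ) : ZMod p) := by
          rw [h4]
          push_cast
          ring
        rw [h5, h4, neg_eq_neg_one_mul, map_mul, hneg1, hr L hL le_rfl,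
          neg_eq_neg_one_mul ((L + 1 : ℕ) : ZMod p), map_mul, hneg1, hn]
        decide
      · rw [hW1o _ hR] at h
        rw [hW1o _ hR', hsucc m hm1, h] at h'
        exact absurd h' (by simp)

end Pool.Agent.Lib.MP_db622c_co.P2
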