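import Pool.Agent.Lib.MP_db622c_co.P2.Run
import Pool.Agent.Lib.MP_db622c_co.P2.WW

/-!
# P2-Kappa: a half set and a square with equal values at `u` and `κ * u`

`exists_u`: `κ ≠ -1`, `χ κ = 1`.  If `κ = 1` take `W0`, `u = 1`.  Otherwise take `L`, `W0`, `W1` from
`exists_run`, `exists_WW`.  There is `u = (j : ZMod p)`, `1 ≤ j ≤ L`, with `κ * u ∉ R`
(`R = {m | InR p L m}`): if `κ ∉ R` take `j = 1`; if `κ = ± k`, `1 ≤ k ≤ L`, then `k ≥ 2` (so `L ≥ 2`), and
`j = L / k + 1 ≤ L` has `L < j * k ≤ L + k ≤ 2 * L < p - L`, so `± j * k ∉ R` (if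
`j * k ≡ ± i (mod p)` with `1 ≤ i ≤ L`, then `p ∣ j * k - i` or `p ∣ j * k + i`, and
`0 < j * k ∓ i < p`).  `χ u = 1` by `exists_run`.  Since `W1 u = !W0 u` and `W1 (κ * u) = W0 (κ * u)`, one of
`W0`, `W1` takes equal values at `u` and `κ * u`.
Moreover, replacing `u` by `-u` (`χ (-u) = χ u`, both values are switched; `κ * u ≠ 0`), the common value can
be taken to be `false`.
-/

namespace Pool.Agent.Lib.MP_db622c_co.P2

open Pool.Agent.Lib.MP_db622c_co Pool.Agent.Lib.MP_db622c_co.CB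

private theorem fin_u (p : ℕ) [Fact p.Prime] (h4 : p % 4 = 1) (κ : ZMod p) (hκ0 : κ ≠ 0)
    (W : ZMod p → Bool) (hW : ∀ m, m ≠ 0 → W (-m) = !(W m)) (u : ZMod p) (hu0 : u ≠ 0)
    (hu : quadraticChar (ZMod p) u = 1) (h : W u = W (κ * u)) :
    ∃ u' : ZMod p, quadraticChar (ZMod p) u' = 1 ∧ W u' = false ∧ W (κ * u') = false := by
  have hneg1 : quadraticChar (ZMod p) (-1) = 1 := by
    have hsq : IsSquare (-1 : ZMod p) := ZMod.exists_sq_eq_neg_one_iff.2 (by omega)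
    have h0 : (-1 : ZMod p) ≠ 0 := neg_ne_zero.2 one_ne_zero
    exact (quadraticChar_one_iff_isSquare h0).2 hsq
  by_cases h1 : W u = false
  · exact ⟨u, hu, h1, h ▸ h1⟩
  · have h2 : W u = true := by simpa using h1
    refine ⟨-u, ?_, ?_, ?_⟩
    · rw [neg_eq_neg_one_mul, map_mul, hneg1, hu, one_mul]
    · rw [hW u hu0, h2]; rfl
    · rw [mul_neg, hW _ (mul_ne_zero hκ0 hu0), ← h, h2]; rfl

theorem exists_u (p : ℕ) [Fact p.Prime] (h4 : p % 4 = 1) (h13 : 13 ≤ p) (κ : ZMod p)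
    (hκ : quadraticChar (ZMod p) κ = 1) (hκ1 : κ ≠ -1) :
    ∃ (W : ZMod p → Bool) (u : ZMod p), (∀ m, m ≠ 0 → W (-m) = !(W m)) ∧
      (∀ m, m ≠ 0 → m + 1 ≠ 0 → W m = true → W (m + 1) = true →
        quadraticChar (ZMod p) (m + 1) ≠ quadraticChar (ZMod p) m) ∧
      quadraticChar (ZMod p) u = 1 ∧ W u = false ∧ W (κ * u) = false := by
  obtain ⟨L, hL, h3L, hr, hn⟩ := exists_run p h4 h13
  obtain ⟨W0, W1, hn0, hn1, hc0, hc1, hin, hout⟩ := exists_WW p L h4 hL h3L hr hn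
  have hκ0 : κ ≠ 0 := chi_ne_zero (Or.inl hκ)
  have fin0 : ∀ u : ZMod p, quadraticChar (ZMod p) u = 1 → W0 u = W0 (κ * u) →
      ∃ (W : ZMod p → Bool) (u : ZMod p), (∀ m, m ≠ 0 → W (-m) = !(W m)) ∧
      (∀ m, m ≠ 0 → m + 1 ≠ 0 → W m = true → W (m + 1) = true →
        quadraticChar (ZMod p) (m + 1) ≠ quadraticChar (ZMod p) m) ∧
      quadraticChar (ZMod p) u = 1 ∧ W u = false ∧ W (κ * u) = false := by
    intro u hu h
    obtain ⟨u', h1, h2, h3⟩ := fin_u p h4 κ hκ0 W0 hn0 u (chi_ne_zero (Or.inl hu)) hu h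
    exact ⟨W0, u', hn0, hc0, h1, h2, h3⟩
  have fin1 : ∀ u : ZMod p, quadraticChar (ZMod p) u = 1 → W1 u = W1 (κ * u) →
      ∃ (W : ZMod p → Bool) (u : ZMod p), (∀ m, m ≠ 0 → W (-m) = !(W m)) ∧
      (∀ m, m ≠ 0 → m + 1 ≠ 0 → W m = true → W (m + 1) = true →
        quadraticChar (ZMod p) (m + 1) ≠ quadraticChar (ZMod p) m) ∧
      quadraticChar (ZMod p) u = 1 ∧ W u = false ∧ W (κ * u) = false := by
    intro u hu h
    obtain ⟨u', h1, h2, h3⟩ := fin_u p h4 κ hκ0 W1 hn1 u (chi_ne_zero (Or.inl hu)) hu h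
    exact ⟨W1, u', hn1, hc1, h1, h2, h3⟩
  by_cases hk1 : κ = 1
  · refine fin0 1 (map_one _) ?_
    rw [hk1, one_mul]
  -- a multiplier outside of `R`
  have hj : ∃ j : ℕ, 1 ≤ j ∧ j ≤ L ∧ ¬ InR p L (κ * (j : ZMod p)) := by
    by_cases hR : InR p L κ
    · obtain ⟨k, hk, hkL, hkk⟩ := hR
      have hk2 : 2 ≤ k := by
        by_contra hlt
        have h1 : k = 1 := by omega
        rw [h1, Nat.cast_one] at hkk
        rcases hkk with h | h
        · exact hk1 h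
        · exact hκ1 h
      have hlt : L < k * (L / k + 1) := Nat.lt_mul_div_succ L (by omega)
      have hle : k * (L / k) ≤ L := Nat.mul_div_le L k
      have hjL : L / k ≤ L / 2 := Nat.div_le_div_left hk2 (by norm_num)
      have hprod : k * (L / k + 1) = k * (L / k) + k := by ring
      have hj1 : 1 ≤ L / k + 1 := Nat.le_add_left 1 _
      have hj2 : L / k + 1 ≤ L := by
        have h1 : L / 2 + 1 ≤ L := by omega
        exact le_trans (Nat.add_le_add_right hjL 1) h1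
      obtain ⟨j, hjd⟩ : ∃ j, j = L / k + 1 := ⟨_, rfl⟩
      rw [← hjd] at hlt hprod hj1 hj2
      have hm0 : ((k * j : ℕ) : ZMod p) ≠ 0 := by
        intro h0
        rw [ZMod.natCast_eq_zero_iff] at h0
        have := Nat.le_of_dvd (by omega) h0
        omega
      have hnot : ¬ InR p L ((k * j : ℕ) : ZMod p) := by
        rw [inR_iff h3L hm0, ZMod.val_natCast, Nat.mod_eq_of_lt (by omega)]
        omega
      refine ⟨j, hj1, hj2, ?_⟩
      rcases hkk with h | h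
      · rw [h, ← Nat.cast_mul]
        exact hnot
      · intro hc
        apply hnot
        have h5 := inR_neg hc
        rw [h, neg_mul, neg_neg, ← Nat.cast_mul] at h5
        exact h5
    · exact ⟨1, le_refl 1, hL, by rw [Nat.cast_one, mul_one]; exact hR⟩
  obtain ⟨j, hj1, hjL, hjR⟩ := hj
  have hu := hr j hj1 hjL
  have hjin : InR p L (j : ZMod p) := ⟨j, hj1, hjL, Or.inl rfl⟩
  by_cases h : W0 (j : ZMod p) = W0 (κ * (j : ZMod p))
  · exact fin0 _ hu h
  · refine fin1 _ hu ?_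
    rw [hin _ hjin, hout _ hjR]
    revert h
    cases W0 (j : ZMod p) <;> cases W0 (κ * (j : ZMod p)) <;> simp

end Pool.Agent.Lib.MP_db622c_co.P2
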