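import Pool.Agent.Lib.MP_db622c_co.P2.Base

/-!
# P2-Split: the Paley matrix of the second kind separates the edges of the board classes

`IsSplit S2 g`: for `j ≠ k`, `S2 (g j k) k = - S2 (g j k) j`.
* class `(1, none)`: `(0,x),(1,x)`: `1`, `-1`; `(0,none),(1,none)`: `-1`, `1`.
* infinity edges `(u, none), (v, some x)` in the class `(u + v + 1, some x)`: if `u = v` the class
  is `(1, x)`: values `1` and `-1`; if `u ≠ v` the class is `(0, x)`: values `sd u`, `sd v = - sd u`.
* same side `u`, `x ≠ y`: with `m = wr ((y - x) / (2 * s u))`, `a = (x + y) / 2 - m`: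
  `(y - x) / (2 * s u) = e * m` with `e = ±1`, `x - a = m * (1 - e * s u)`,
  `y - a = m * (1 + e * s u)`, hence (`h1`, `h2`) `χ (x - a) = e * χ m`, `χ (y - a) = - e * χ m`
  (both nonzero), in both rows `(0, a)`, `(1, a)` opposite signs.
* cross edges `(0, x), (1, y)`, `y ≠ x`: `y - x = (s 1 + ch z * s 0) * z` (`exists_dl`),
  `a = x + ch z * s 0 * z + wr z`.  If `wr z = z`: `x - a = - z * (1 + ch z * s 0)`,
  `y - a = - z * (1 - s 1)`; if `wr z = -z`: `x - a = z * (1 - ch z * s 0)`, `y - a = z * (1 + s 1)`.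
  With `χ (1 - s u) = 1`, `χ (1 + s u) = -1`, `χ (-1) = 1`:
  `χ z = 1` (row `(0, a)`): `χ (x - a) = -1`, `χ (y - a) = 1` resp. `1`, `-1`: opposite;
  `χ z = -1` (row `(1, a)`, signs `χ (x - a)` and `- χ (y - a)`): `χ (x - a) = -1`,
  `χ (y - a) = -1` resp. `1` and `1`: opposite.
-/

namespace Pool.Agent.Lib.MP_db622c_co.P2

open Pool.Agent.Lib.MP_db622c_co Pool.Agent.Lib.MP_db622c_co.CB

variable {F : Type} [Field F] [Fintype F] [DecidableEq F]

private theorem z2 (u : ZMod 2) : u = 0 ∨ u = 1 := by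
  fin_cases u
  · left; rfl
  · right; rfl

private theorem sd_zero : sd 0 = 1 := by unfold sd; rw [if_pos rfl]

private theorem sd_one : sd 1 = -1 := by unfold sd; rw [if_neg (by decide)]

private theorem sd_ne {u v : ZMod 2} (h : u ≠ v) : sd v = - sd u := by
  rcases z2 u with rfl | rfl <;> rcases z2 v with rfl | rfl
  · exact absurd rfl h
  · rw [sd_zero, sd_one]
  · rw [sd_zero, sd_one]; norm_num
  · exact absurd rfl h

private theorem S2_ss {i u : ZMod 2} {a x : F} (h : x ≠ a) :
    S2 (i, some a) (u, some x) =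
      if i = 0 then quadraticChar F (x - a) else sd u * quadraticChar F (x - a) := by
  show (if x = a then (if i = 0 then sd u else -1)
      else (if i = 0 then quadraticChar F (x - a) else sd u * quadraticChar F (x - a))) = _
  rw [if_neg h]

private theorem S2_eq {i u : ZMod 2} {a : F} :
    S2 (i, some a) (u, some a) = if i = 0 then sd u else -1 := by
  show (if a = a then (if i = 0 then sd u else -1)
      else (if i = 0 then quadraticChar F (a - a) else sd u * quadraticChar F (a - a))) = _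
  rw [if_pos rfl]

private theorem S2_sn {i u : ZMod 2} {a : F} :
    S2 (i, some a) (u, (none : Option F)) = if i = 0 then sd u else 1 := rfl

private theorem ne_of_chi {w : F} {e : ℤ} (h : quadraticChar F w = e) (he : e ≠ 0) : w ≠ 0 := by
  intro h0
  rw [h0, quadraticChar_zero] at h
  exact he h.symm

/-- infinity edges -/
private theorem split_inf (u v : ZMod 2) (x : F) :
    S2 (u + v + 1, some x) (v, some x) = - S2 (u + v + 1, some x) (u, (none : Option F)) := by
  rw [S2_eq, S2_sn]
  by_cases h : u = v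
  · subst h
    have : u + u + 1 = (1 : ZMod 2) := by
      rcases z2 u with rfl | rfl <;> decide
    rw [this, if_neg (by decide), if_neg (by decide)]
  · have : u + v + 1 = (0 : ZMod 2) := by
      rcases z2 u with rfl | rfl <;> rcases z2 v with rfl | rfl
      · exact absurd rfl h
      · decide
      · decide
      · exact absurd rfl h
    rw [this, if_pos rfl, if_pos rfl, sd_ne h]

/-- edges of one side -/
private theorem split_same (D : PData F) (u : ZMod 2) {x y : F} (hxy : x ≠ y) :
    S2 (D.gs u x y) (u, some y) = - S2 (D.gs u x y) (u, some x) := by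
  have h2 := two_ne D.hF
  have hs := D.s_ne u
  obtain ⟨ρ, hρ⟩ : ∃ ρ, ρ = (y - x) / (2 * D.s u) := ⟨_, rfl⟩
  have hρ0 : ρ ≠ 0 := by
    rw [hρ]; exact div_ne_zero (sub_ne_zero.2 hxy.symm) (mul_ne_zero h2 hs)
  have hyx : y - x = 2 * (D.s u * ρ) := by
    rw [hρ]; field_simp
  have hm0 := D.wr_ne hρ0
  unfold PData.gs
  rw [← hρ]
  obtain ⟨m, hm⟩ : ∃ m, m = D.wr ρ := ⟨_, rfl⟩
  rw [← hm] at hm0 ⊢
  have hxa : x - ((x + y) / 2 - m) = m - D.s u * ρ := by
    have h3 : y = x + 2 * (D.s u * ρ) := by rw [← hyx]; ring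
    rw [h3]; field_simp; ring
  have hya : y - ((x + y) / 2 - m) = m + D.s u * ρ := by
    have h3 : y = x + 2 * (D.s u * ρ) := by rw [← hyx]; ring
    rw [h3]; field_simp; ring
  obtain ⟨c, hc0, hcx, hcy⟩ : ∃ c : ℤ, c ≠ 0 ∧
      quadraticChar F (x - ((x + y) / 2 - m)) = c ∧
      quadraticChar F (y - ((x + y) / 2 - m)) = -c := by
    have hχ : quadraticChar F m ≠ 0 := by
      rcases quadraticChar_dichotomy hm0 with h | h <;> rw [h] <;> norm_num
    rcases D.wr_cases ρ with h | h
    · have h' : ρ = m := by rw [hm, h]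
      refine ⟨quadraticChar F m, hχ, ?_, ?_⟩
      · rw [hxa, h', show m - D.s u * m = m * (1 - D.s u) by ring, map_mul, D.h1 u, mul_one]
      · rw [hya, h', show m + D.s u * m = m * (1 + D.s u) by ring, map_mul, D.h2 u]; ring
    · have h' : ρ = -m := by rw [hm, h, neg_neg]
      refine ⟨-quadraticChar F m, neg_ne_zero.2 hχ, ?_, ?_⟩
      · rw [hxa, h', show m - D.s u * -m = m * (1 + D.s u) by ring, map_mul, D.h2 u]; ring
      · rw [hya, h', show m + D.s u * -m = m * (1 - D.s u) by ring, map_mul, D.h1 u]; ring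
  have hx0 : x ≠ (x + y) / 2 - m := sub_ne_zero.1 (ne_of_chi hcx hc0)
  have hy0 : y ≠ (x + y) / 2 - m := sub_ne_zero.1 (ne_of_chi hcy (neg_ne_zero.2 hc0))
  rw [S2_ss hx0, S2_ss hy0, hcx, hcy]
  split_ifs
  · rfl
  · ring

/-- cross edges -/
private theorem split_cross (D : PData F) (x y : F) :
    S2 (D.gc x y) (1, some y) = - S2 (D.gc x y) (0, some x) := by
  unfold PData.gc
  by_cases hxy : y = x
  · rw [if_pos hxy]
    show (if (1 : ZMod 2) = 0 then (1 : ℤ) else sd 1) = - (if (1 : ZMod 2) = 0 then (1 : ℤ) else sd 0)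
    rw [if_neg (by decide), if_neg (by decide), sd_zero, sd_one]
  rw [if_neg hxy]
  obtain ⟨z, hz0, hz, hdl⟩ := D.exists_dl (sub_ne_zero.2 hxy)
  rw [hdl]
  have hxa : x - (x + PData.ch z * D.s 0 * z + D.wr z) = -(PData.ch z * D.s 0 * z + D.wr z) := by
    ring
  have hya : y - (x + PData.ch z * D.s 0 * z + D.wr z) = D.s 1 * z - D.wr z := by
    have h3 : y = x + (D.s 1 + PData.ch z * D.s 0) * z := by rw [← hz]; ring
    rw [h3]; ring
  obtain ⟨a, ha⟩ : ∃ a, a = x + PData.ch z * D.s 0 * z + D.wr z := ⟨_, rfl⟩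
  rw [← ha] at hxa hya ⊢
  have neg1 := chi_neg D.hF
  have key : ∃ cx cy : ℤ, cx ≠ 0 ∧ cy ≠ 0 ∧ quadraticChar F (x - a) = cx ∧
      quadraticChar F (y - a) = cy ∧
      ((PData.T z = 0 ∧ cy = -cx) ∨ (PData.T z = 1 ∧ cy = cx)) := by
    rcases ch_cases hz0 with ⟨h1, h2, h3⟩ | ⟨h1, h2, h3⟩ <;> rcases D.wr_cases z with h | h
    · refine ⟨-1, 1, by norm_num, by norm_num, ?_, ?_, Or.inl ⟨h3, by norm_num⟩⟩
      · rw [hxa, h2, h, show -(1 * D.s 0 * z + z) = -(z * (1 + D.s 0)) by ring, neg1, map_mul, h1,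
          D.h2 0]; norm_num
      · rw [hya, h, show D.s 1 * z - z = -(z * (1 - D.s 1)) by ring, neg1, map_mul, h1,
          D.h1 1]; norm_num
    · refine ⟨1, -1, by norm_num, by norm_num, ?_, ?_, Or.inl ⟨h3, by norm_num⟩⟩
      · rw [hxa, h2, h, show -(1 * D.s 0 * z + -z) = z * (1 - D.s 0) by ring, map_mul, h1,
          D.h1 0]; norm_num
      · rw [hya, h, show D.s 1 * z - -z = z * (1 + D.s 1) by ring, map_mul, h1,
          D.h2 1]; norm_num
    · refine ⟨-1, -1, by norm_num, by norm_num, ?_, ?_, Or.inr ⟨h3, rfl⟩⟩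
      · rw [hxa, h2, h, show -(-1 * D.s 0 * z + z) = -(z * (1 - D.s 0)) by ring, neg1, map_mul, h1,
          D.h1 0]; norm_num
      · rw [hya, h, show D.s 1 * z - z = -(z * (1 - D.s 1)) by ring, neg1, map_mul, h1,
          D.h1 1]; norm_num
    · refine ⟨1, 1, by norm_num, by norm_num, ?_, ?_, Or.inr ⟨h3, rfl⟩⟩
      · rw [hxa, h2, h, show -(-1 * D.s 0 * z + -z) = z * (1 + D.s 0) by ring, map_mul, h1,
          D.h2 0]; norm_num
      · rw [hya, h, show D.s 1 * z - -z = z * (1 + D.s 1) by ring, map_mul, h1,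
          D.h2 1]; norm_num
  obtain ⟨cx, cy, hcx0, hcy0, hcx, hcy, hT⟩ := key
  have hx0 : x ≠ a := sub_ne_zero.1 (ne_of_chi hcx hcx0)
  have hy0 : y ≠ a := sub_ne_zero.1 (ne_of_chi hcy hcy0)
  rw [S2_ss hx0, S2_ss hy0, hcx, hcy]
  rcases hT with ⟨h, h'⟩ | ⟨h, h'⟩
  · rw [h, if_pos rfl, if_pos rfl, h']
  · rw [h, if_neg (by decide), if_neg (by decide), sd_zero, sd_one, h']; ring

theorem PData.isSplit_g (D : PData F) : IsSplit (S2 (F := F)) D.g := by
  rintro ⟨u, j⟩ ⟨v, k⟩ hjk
  rcases j with _ | x <;> rcases k with _ | y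
  · have huv : u ≠ v := by
      rintro rfl; exact hjk rfl
    show (if (1 : ZMod 2) = 0 then (1 : ℤ) else - sd v) = - (if (1 : ZMod 2) = 0 then (1 : ℤ) else - sd u)
    rw [if_neg (by decide), if_neg (by decide), sd_ne huv]
  · exact split_inf u v y
  · show S2 (u + v + 1, some x) (v, (none : Option F)) = - S2 (u + v + 1, some x) (u, some x)
    have h := split_inf v u x
    rw [add_comm v u] at h
    rw [h, neg_neg]
  · show S2 (if u = v then D.gs u x y else if u = 0 then D.gc x y else D.gc y x) (v, some y) =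
      - S2 (if u = v then D.gs u x y else if u = 0 then D.gc x y else D.gc y x) (u, some x)
    by_cases h : u = v
    · subst h
      rw [if_pos rfl]
      apply split_same
      rintro rfl; exact hjk rfl
    · rw [if_neg h]
      by_cases h0 : u = 0
      · have hv : v = 1 := by
          rcases z2 v with h1 | h1
          · exact absurd (h0.trans h1.symm) h
          · exact h1
        rw [if_pos h0, h0, hv]
        exact split_cross D x y
      · have hu : u = 1 := by
          rcases z2 u with h1 | h1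
          · exact absurd h1 h0
          · exact h1
        have hv : v = 0 := by
          rcases z2 v with h1 | h1
          · exact h1
          · exact absurd (hu.trans h1.symm) h
        rw [if_neg h0, hu, hv, split_cross D y x, neg_neg]

end Pool.Agent.Lib.MP_db622c_co.P2
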