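import Pool.Agent.Lib.MP_db622c_co.P2.Had
import Pool.Agent.Lib.MP_db622c_co.P2.Split
import Pool.Agent.Lib.MP_db622c_co.P2.HC
import Pool.Agent.Lib.MP_db622c_co.CB.Fin

/-!
# P2-Prod: the packages on `2 (q + 1)` and `2 ^ (e + 1) (q + 1)` points
-/

namespace Pool.Agent.Lib.MP_db622c_co.P2

open Pool.Agent.Lib.MP_db622c_co Pool.Agent.Lib.MP_db622c_co.CB

variable {F : Type} [Field F] [Fintype F] [DecidableEq F]

omit [Field F] [DecidableEq F] in
theorem card_Pt : Fintype.card (Pt F) = 2 * (Fintype.card F + 1) := by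
  rw [Fintype.card_prod, ZMod.card, Fintype.card_option]

namespace PData

theorem hasPD (D : PData F) : HasPD (2 * (Fintype.card F + 1)) :=
  ⟨Pt F, Pt F, Pt F, instZeroPt F, instZeroPt F, inferInstance, inferInstance, inferInstance,
    S2, D.g, D.r, card_Pt, card_Pt, card_Pt, isH_S2 D.hF, D.isOF_g, D.isOF_r, D.isSplit_g,
    D.isOrth_gr⟩

theorem hasPD_mul (D : PData F) (e : ℕ) (he : 2 ≤ e) : HasPD (2 ^ e * (2 * (Fintype.card F + 1))) := by
  obtain ⟨z, hz, hzδ⟩ := D.exists_other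
  obtain ⟨K, _, _, _, φ, c, hK, hc0, hc1, hφ1, hφc⟩ := exists_func e he
  have h1 := hasPD_prod (A := Pt F) (J := Pt F) (X := ZMod 2 × F) φ 1 c c one_ne_zero
    hφ1 hφc hc0 hc1 (2 * (Fintype.card F + 1)) card_Pt card_Pt
    (by rw [Fintype.card_prod, ZMod.card]; ring)
    (isH_S2 D.hF) D.isOF_g D.isSplit_g (D.isRB_sh D.δ D.hδ) (D.isLam_sh z hz hzδ)
    D.isHC_hh D.o1 (D.o2 z hz) (mate_prod e he hK)
  rw [hK] at h1
  exact h1

end PData

end Pool.Agent.Lib.MP_db622c_co.P2
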