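import Pool.Agent.Lib.MP_db622c_co.P2.Base

/-!
# P2-Run: the initial run of quadratic residues

`p ≡ 1 (mod 4)` prime, `p ≥ 13`, `χ = quadraticChar (ZMod p)`.  Let `n = L + 1 ≥ 2` be the least
positive integer `< p` whose class has `χ = -1` (there are non-residues, `χ` has sum `0`, or
`quadraticChar_exists_neg_one`).  Then `χ i = 1` for `1 ≤ i ≤ L`.
Claim `L * (L + 1) < p`: let `m = p / n + 1`, so `p < m * n < p + n` (`n ∤ p`, as `1 < n < p`).  The number
`m * n - p ∈ {1, .., n - 1}` has `χ = 1`, so `χ m * χ n = 1`, `χ m = -1`, hence `m ≥ n` (or `m ≥ p`,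
impossible/also fine) by minimality of `n`; so `n ≤ p / n + 1`, `(n - 1) * n ≤ p`, and `≠` since `p` is
prime and `n ≥ 3` (`n = 2`: `2 < p`).  Then `3 * L < p`: for `L ≥ 2`, `3 * L ≤ (L + 1) * L < p`; for
`L = 1`, `3 < p`.
-/

namespace Pool.Agent.Lib.MP_db622c_co.P2

open Pool.Agent.Lib.MP_db622c_co Pool.Agent.Lib.MP_db622c_co.CB

theorem exists_run (p : ℕ) [Fact p.Prime] (h4 : p % 4 = 1) (h13 : 13 ≤ p) :
    ∃ L : ℕ, 1 ≤ L ∧ 3 * L < p ∧ (∀ i : ℕ, 1 ≤ i → i ≤ L → quadraticChar (ZMod p) (i : ZMod p) = 1) ∧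
      quadraticChar (ZMod p) ((L + 1 : ℕ) : ZMod p) = -1 := by
  classical
  have hp : p.Prime := Fact.out
  have hchar : ringChar (ZMod p) ≠ 2 := by
    rw [ZMod.ringChar_zmod_n]
    omega
  have hex : ∃ n : ℕ, 0 < n ∧ n < p ∧ quadraticChar (ZMod p) (n : ZMod p) = -1 := by
    obtain ⟨a, ha⟩ := quadraticChar_exists_neg_one hchar
    have ha0 : a ≠ 0 := by
      rintro rfl
      rw [quadraticChar_zero] at ha
      norm_num at ha
    refine ⟨a.val, ?_, ZMod.val_lt a, ?_⟩
    · exact Nat.pos_of_ne_zero (fun h => ha0 ((ZMod.val_eq_zero a).1 h))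
    · rw [ZMod.natCast_zmod_val]
      exact ha
  set n := Nat.find hex with hn
  obtain ⟨hn0, hnp, hnc⟩ := Nat.find_spec hex
  rw [← hn] at hn0 hnp hnc
  have hmin : ∀ i : ℕ, 1 ≤ i → i < n → quadraticChar (ZMod p) (i : ZMod p) = 1 := by
    intro i hi1 hin
    have h1 := Nat.find_min hex (hn ▸ hin)
    have hi0 : (i : ZMod p) ≠ 0 := by
      intro h0
      rw [ZMod.natCast_eq_zero_iff] at h0
      have := Nat.le_of_dvd (by omega) h0
      omega
    rcases quadraticChar_dichotomy hi0 with h2 | h2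
    · exact h2
    · exact absurd ⟨by omega, by omega, h2⟩ h1
  have hn2 : 2 ≤ n := by
    by_contra h
    have h1 : n = 1 := by omega
    rw [h1, Nat.cast_one, map_one] at hnc
    norm_num at hnc
  have hnd : ¬ n ∣ p := by
    intro h
    rcases (Nat.dvd_prime hp).1 h with h1 | h1 <;> omega
  have hr0 : p % n ≠ 0 := fun h => hnd (Nat.dvd_of_mod_eq_zero h)
  have hrn : p % n < n := Nat.mod_lt _ hn0
  have hdm := Nat.div_add_mod p n
  have hmn : n ≤ p / n + 1 := by
    by_contra hlt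
    push Not at hlt
    have hm1 := hmin (p / n + 1) (Nat.le_add_left 1 _) hlt
    have hr1 := hmin (n - p % n) (by omega) (by omega)
    have heq : (n - p % n) + p = (p / n + 1) * n := by
      have h1 : (p / n + 1) * n = n * (p / n) + n := by ring
      rw [h1]
      omega
    have hz : ((n - p % n : ℕ) : ZMod p) = ((p / n + 1 : ℕ) : ZMod p) * (n : ZMod p) := by
      have h2 := congrArg (fun k : ℕ => (k : ZMod p)) heq
      simp only [Nat.cast_add, Nat.cast_mul, CharP.cast_eq_zero, add_zero] at h2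
      rw [h2]
      push_cast
      ring
    rw [hz, map_mul, hm1, hnc] at hr1
    norm_num at hr1
  have hle : (n - 1) * n ≤ p := by
    have h1 : n - 1 ≤ p / n := by omega
    calc (n - 1) * n ≤ (p / n) * n := Nat.mul_le_mul_right n h1
      _ ≤ p := Nat.div_mul_le_self p n
  have hlt : (n - 1) * n < p := by
    rcases hle.lt_or_eq with h1 | h1
    · exact h1
    · exact absurd ⟨n - 1, by rw [mul_comm]; exact h1.symm⟩ hnd
  refine ⟨n - 1, by omega, ?_, ?_, ?_⟩
  · by_cases h3 : 3 ≤ n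
    · have : 3 * (n - 1) ≤ (n - 1) * n := by
        rw [mul_comm (n - 1) n]
        exact Nat.mul_le_mul_right _ h3
      omega
    · omega
  · intro i hi1 hi2
    exact hmin i hi1 (by omega)
  · have : n - 1 + 1 = n := by omega
    rw [this]
    exact hnc

end Pool.Agent.Lib.MP_db622c_co.P2
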