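import Pool.Agent.Lib.MP_db622c_co.P2.OFg
import Pool.Agent.Lib.MP_db622c_co.CB.LamOf

/-!
# P2-Sh: the perfect matchings `{(0, x), (1, x + d)}`, `{(0, none), (1, none)}`

For `z ≠ 0` and `d = (s 1 + ch z * s 0) * z` (so `dl d = z`, `d ≠ 0`) the board class of the
edge at `(0, some x)` is `(T z, some (x + ch z * s 0 * z + wr z))`, at `(1, some y)` (whose
partner is `(0, some (y - d))`) it is `(T z, some (y - d + ch z * s 0 * z + wr z))`, at
`(u, none)` it is `(1, none)`.  So `isRB_sh` is immediate.

`isLam_sh`: apply `isLam_Lsw D.isOF_g` with `μ = sh D.d1` (`z = δ`, `D.d1 = (s 1 + ch δ * s 0) * δ`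
by definition), `ν = sh d2`, `d2 = (s 1 + ch z * s 0) * z`, `side = Prod.fst`, `p0 = (0, none)`.
`hd`: for a finite point the class of the `ν` edge has type `T z`, that of the `μ` edge has type
`T δ ≠ T z` (as `χ z ≠ χ δ`, `T_eq_iff`); the class `(1, none)` only occurs at the points `(u, none)`.
`hs`: a class `c ≠ 0 = (0, none)` is `(1, none)` (edge at `(0, none)`) or `(τ, some a)` with
`τ = T z` or `τ = T δ` (the only two values of `ZMod 2`), attained at `(0, some x)` with
`x = a - ch z * s 0 * z - wr z` resp. with `δ`.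
-/

namespace Pool.Agent.Lib.MP_db622c_co.P2

open Pool.Agent.Lib.MP_db622c_co Pool.Agent.Lib.MP_db622c_co.CB

variable {F : Type} [Field F] [Fintype F] [DecidableEq F]

/-- the perfect matching of difference `d` -/
def sh (d : F) : Pt F → Pt F
  | (u, none) => (u + 1, none)
  | (u, some x) => (u + 1, some (if u = 0 then x + d else x - d))

theorem shz_cases (u : ZMod 2) : u = 0 ∨ u = 1 := by
  revert u; decide

theorem shz_succ_ne (u : ZMod 2) : u + 1 ≠ u := by
  revert u; decide

theorem shz_succ_succ (u : ZMod 2) : u + 1 + 1 = u := by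
  revert u; decide

theorem shz_other {u v : ZMod 2} (h : v ≠ u) : v = u + 1 := by
  revert u v; decide

theorem shz_three {t1 t2 : ZMod 2} (h : t1 ≠ t2) (τ : ZMod 2) : τ = t1 ∨ τ = t2 := by
  revert τ t1 t2; decide

theorem sh_inv (d : F) (p : Pt F) : sh d (sh d p) = p := by
  obtain ⟨u, x⟩ := p
  cases x with
  | none => simp only [sh, shz_succ_succ]
  | some x =>
    rcases shz_cases u with h | h
    · subst h
      have h1 : (0 : ZMod 2) + 1 ≠ 0 := by decide
      simp only [sh, shz_succ_succ, if_true, if_neg h1, add_sub_cancel_right]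
    · subst h
      have h1 : (1 : ZMod 2) + 1 = 0 := by decide
      have h2 : (1 : ZMod 2) ≠ 0 := by decide
      simp only [sh, shz_succ_succ, if_pos h1, if_neg h2, sub_add_cancel]

theorem sh_fst (d : F) (p : Pt F) : (sh d p).1 = p.1 + 1 := by
  obtain ⟨u, x⟩ := p
  cases x <;> rfl

theorem sh_ne (d : F) (p : Pt F) : sh d p ≠ p := by
  intro h
  have h1 := sh_fst d p
  rw [h] at h1
  exact shz_succ_ne _ h1.symm

/-- the end on side `0` of the edge at `(u, some x)` -/
def shbp (d : F) (u : ZMod 2) (x : F) : F := if u = 0 then x else x - d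

namespace PData

variable (D : PData F)

/-- the difference of the matching with parameter `z` -/
def shdf (z : F) : F := (D.s 1 + ch z * D.s 0) * z

theorem shdf_ne {z : F} (hz : z ≠ 0) : D.shdf z ≠ 0 := mul_ne_zero (D.coef_ne hz).1 hz

theorem gc_sh {z : F} (hz : z ≠ 0) (x : F) :
    D.gc x (x + D.shdf z) = (T z, some (x + ch z * D.s 0 * z + D.wr z)) := by
  have h1 : x + D.shdf z ≠ x := by
    intro h
    exact D.shdf_ne hz (by simpa using h)
  unfold gc
  rw [if_neg h1, add_sub_cancel_left]
  have h2 : D.dl (D.shdf z) = z := D.dl_mul hz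
  rw [h2]

theorem g_sh_none (d : F) (u : ZMod 2) : D.g (u, none) (sh d (u, none)) = (1, none) := rfl

theorem g_sh_some {z : F} (hz : z ≠ 0) (u : ZMod 2) (x : F) :
    D.g (u, some x) (sh (D.shdf z) (u, some x)) =
      (T z, some (shbp (D.shdf z) u x + ch z * D.s 0 * z + D.wr z)) := by
  rcases shz_cases u with h | h
  · subst h
    have e1 : sh (D.shdf z) ((0 : ZMod 2), some x) = ((0 : ZMod 2) + 1, some (x + D.shdf z)) := by
      simp only [sh, if_true]
    have e2 : shbp (D.shdf z) 0 x = x := by simp only [shbp, if_true]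
    have h1 : ¬ ((0 : ZMod 2) = 0 + 1) := by decide
    rw [e1, e2, ← D.gc_sh hz x]
    simp only [g, if_neg h1, if_true]
  · subst h
    have h2 : ¬ ((1 : ZMod 2) = 0) := by decide
    have e1 : sh (D.shdf z) ((1 : ZMod 2), some x) = ((1 : ZMod 2) + 1, some (x - D.shdf z)) := by
      simp only [sh, if_neg h2]
    have e2 : shbp (D.shdf z) 1 x = x - D.shdf z := by simp only [shbp, if_neg h2]
    have h1 : ¬ ((1 : ZMod 2) = 1 + 1) := by decide
    rw [e1, e2, ← D.gc_sh hz (x - D.shdf z), sub_add_cancel]
    simp only [g, if_neg h1, if_neg h2]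

theorem isRB_df {z : F} (hz : z ≠ 0) : IsRB D.g (sh (D.shdf z)) := by
  refine ⟨sh_inv _, sh_ne _, ?_⟩
  rintro ⟨u, x⟩ ⟨v, y⟩ h
  cases x with
  | none =>
    cases y with
    | none =>
      by_cases hv : v = u
      · left; rw [hv]
      · right
        rw [shz_other hv]
        rfl
    | some y =>
      exfalso
      rw [D.g_sh_none, D.g_sh_some hz] at h
      have := congrArg Prod.snd h
      simp at this
  | some x =>
    cases y with
    | none =>
      exfalso
      rw [D.g_sh_none, D.g_sh_some hz] at h
      have := congrArg Prod.snd h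
      simp at this
    | some y =>
      rw [D.g_sh_some hz, D.g_sh_some hz] at h
      have h1 := Option.some.inj (congrArg Prod.snd h)
      have h2 : shbp (D.shdf z) u x = shbp (D.shdf z) v y := by
        have h3 := add_right_cancel h1
        exact add_right_cancel h3
      have n10 : ¬ ((1 : ZMod 2) = 0) := by decide
      have e11 : (1 : ZMod 2) + 1 = 0 := by decide
      rcases shz_cases u with hu | hu <;> rcases shz_cases v with hv | hv <;> subst hu <;> subst hv
      · left
        simp only [shbp, if_true] at h2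
        rw [h2]
      · right
        simp only [shbp, if_true, if_neg n10] at h2
        simp only [sh, if_true, zero_add]
        rw [h2, sub_add_cancel]
      · right
        simp only [shbp, if_true, if_neg n10] at h2
        simp only [sh, if_neg n10, e11]
        rw [h2]
      · left
        simp only [shbp, if_neg n10] at h2
        rw [sub_left_injective h2]

theorem isRB_sh (z : F) (hz : z ≠ 0) : IsRB D.g (sh ((D.s 1 + ch z * D.s 0) * z)) :=
  D.isRB_df hz

theorem isLam_sh (z : F) (hz : z ≠ 0) (hzδ : quadraticChar F z ≠ quadraticChar F D.δ) :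
    IsLam (Lsw D.g (sh ((D.s 1 + ch z * D.s 0) * z))) (sh D.d1) Prod.fst := by
  have hT : T z ≠ T D.δ := fun h => hzδ ((T_eq_iff hz D.hδ).1 h)
  have hμ : IsRB D.g (sh (D.shdf D.δ)) := D.isRB_df D.hδ
  have hν : IsRB D.g (sh (D.shdf z)) := D.isRB_df hz
  change IsLam (Lsw D.g (sh (D.shdf z))) (sh (D.shdf D.δ)) Prod.fst
  refine isLam_Lsw D.isOF_g hμ hν (sh_fst _) (sh_fst _) (0, none) rfl ?_ ?_
  · rintro ⟨u, x⟩ ⟨v, y⟩ h
    cases y with
    | none =>
      rcases shz_cases v with hv | hv <;> subst hv
      · left; rfl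
      · right; rfl
    | some y =>
      exfalso
      cases x with
      | none =>
        rw [D.g_sh_none, D.g_sh_some D.hδ] at h
        have := congrArg Prod.snd h
        simp at this
      | some x =>
        rw [D.g_sh_some hz, D.g_sh_some D.hδ] at h
        exact hT (congrArg Prod.fst h)
  · rintro ⟨τ, a⟩ hc
    cases a with
    | none =>
      rcases shz_cases τ with h | h <;> subst h
      · exact absurd rfl hc
      · left
        exact ⟨(0, none), rfl⟩
    | some a =>
      have key : ∀ w : F, w ≠ 0 → T w = τ → ∃ p, D.g p (sh (D.shdf w) p) = (τ, some a) := by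
        intro w hw hτ
        refine ⟨(0, some (a - ch w * D.s 0 * w - D.wr w)), ?_⟩
        rw [D.g_sh_some hw, hτ]
        simp only [shbp, if_true]
        congr 2
        ring
      have hcase : τ = T z ∨ τ = T D.δ := shz_three hT τ
      rcases hcase with h | h
      · left; exact key z hz h.symm
      · right; exact key D.δ D.hδ h.symm

/-- an element of the other class -/
theorem exists_other : ∃ z : F, z ≠ 0 ∧ quadraticChar F z ≠ quadraticChar F D.δ := by
  rcases quadraticChar_dichotomy D.hδ with h | h
  · obtain ⟨a, ha⟩ := quadraticChar_exists_neg_one (char_ne D.hF)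
    refine ⟨a, chi_ne_zero (Or.inr ha), ?_⟩
    rw [h, ha]
    norm_num
  · refine ⟨1, one_ne_zero, ?_⟩
    rw [h, map_one]
    norm_num

end PData

end Pool.Agent.Lib.MP_db622c_co.P2
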